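import Pool.Agent.Y484.LC.BottB

set_option autoImplicit false

/-! BOTT: inverse Boettcher coordinates of all the maps `z ^ d + c`, in the half plane. -/

open Complex Filter Topology Metric Set

namespace Pool.Agent.Y484.LC

open Pool.Agent.H712R2 Pool.Agent.H713R2 Pool.Agent.H713R2.AR Pool.Agent.Y272.TY Pool.Agent.Y272.LC

theorem t : St_Bott := by
  intro d hd
  obtain ⟨Ψ, hΨ⟩ := exists_psi hd
  have hdom : ∀ c ζ : ℂ, green d c 0 < ζ.re → ‖Complex.exp (-ζ)‖ < rho d c := by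
    intro c ζ h
    rw [Complex.norm_exp, Complex.neg_re]
    unfold rho
    exact Real.exp_lt_exp.mpr (by linarith)
  have hne : ∀ ζ : ℂ, Complex.exp (-ζ) ≠ 0 := fun ζ => Complex.exp_ne_zero _
  refine ⟨fun c ζ => Ψ c (Complex.exp (-ζ)), ?_, ?_, ?_, ?_, ?_, ?_, ?_, ?_⟩
  · intro c ζ h
    rw [(hΨ.isP c).conj _ (hne ζ) (hdom c ζ h), ← Complex.exp_nat_mul]
    congr 2
    ring
  · intro c ζ _
    congr 1
    rw [neg_add, Complex.exp_add]
    have : Complex.exp (-(((2 * Real.pi : ℝ) : ℂ) * I)) = 1 := by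
      rw [Complex.exp_neg]
      push_cast
      rw [Complex.exp_two_pi_mul_I, inv_one]
    rw [this, mul_one]
  · intro c ζ h
    rw [green_psi hd hΨ (hne ζ) (hdom c ζ h), Complex.norm_exp, Real.log_exp, Complex.neg_re,
      neg_neg]
  · intro c ζ ζ' h h' he
    have h1 := inj_psi hd hΨ (hne ζ) (hne ζ') (hdom c ζ h) (hdom c ζ' h') he
    rw [Complex.exp_eq_exp_iff_exists_int] at h1
    obtain ⟨n, hn⟩ := h1
    refine ⟨-n, ?_⟩
    push_cast
    linear_combination -hn
  · intro c z hz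
    obtain ⟨x, hx0, hxr, hx⟩ := surj_psi hd hΨ hz
    refine ⟨-Complex.log x, ?_, ?_⟩
    · rw [Complex.neg_re, Complex.log_re, ← hx, green_psi hd hΨ hx0 hxr]
    · simp only [neg_neg]
      rw [Complex.exp_log hx0, hx]
  · intro q hq
    have hq' : green d q.1 0 < q.2.re := hq
    apply ContinuousAt.continuousWithinAt
    have h1 : ContinuousAt (fun q : ℂ × ℂ => (q.1, Complex.exp (-q.2))) q := by fun_prop
    exact ContinuousAt.comp (g := fun p : ℂ × ℂ => Ψ p.1 p.2)
      (f := fun q : ℂ × ℂ => (q.1, Complex.exp (-q.2)))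
      (hΨ.cont _ _ (hne q.2) (hdom q.1 q.2 hq')) h1
  · intro c ζ h
    have h' : green d c 0 < ζ.re := h
    apply DifferentiableAt.differentiableWithinAt
    exact DifferentiableAt.comp ζ (g := Ψ c) (f := fun ζ : ℂ => Complex.exp (-ζ))
      (hΨ.diff c _ (hne ζ) (hdom c ζ h')) (by fun_prop)
  · intro β hβ ζ hζ
    have hn1 : ‖Complex.exp (-ζ)‖ < 1 := by
      rw [Complex.norm_exp, Complex.neg_re, Real.exp_lt_one_iff]
      linarith
    refine ⟨?_, par_psi hd hΨ hβ (hne ζ) hn1⟩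
    rw [green_cc0 hd hβ (hne ζ) hn1, Complex.norm_exp, Real.log_exp, Complex.neg_re, neg_neg]

end Pool.Agent.Y484.LC
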