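import Pool.Agent.Y484.LC.Psi

set_option autoImplicit false

/-! Inverse Boettcher coordinates of `z ^ d + c`: escape rate, injectivity, surjectivity. -/

open Complex Filter Topology Metric Set

namespace Pool.Agent.Y484.LC

open Pool.Agent.H712R2 Pool.Agent.H713R2 Pool.Agent.H713R2.AR

variable {d : ℕ} {Ψ : ℂ → ℂ → ℂ}

theorem green_fc (hd : 2 ≤ d) (c z : ℂ) : green d c (fc d c z) = d * green d c z := by
  have hdR : (0 : ℝ) < d := by exact_mod_cast (by omega : 0 < d)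
  have h1 := gap_tendsto hd c (fc d c z)
  have h2 : Tendsto (fun n => (d : ℝ) * gap d c z (n + 1)) atTop (𝓝 (d * green d c z)) :=
    ((tendsto_add_atTop_iff_nat 1).mpr (gap_tendsto hd c z)).const_mul _
  refine tendsto_nhds_unique h1 (h2.congr fun n => ?_)
  unfold gap
  rw [Function.iterate_succ_apply, pow_succ]
  field_simp

theorem green_of_asym (hd : 2 ≤ d) {c z x : ℂ} (hx : x ≠ 0) (hx1 : ‖x‖ < 1)
    (h : ∀ᶠ n : ℕ in atTop, ‖x ^ (d ^ n) * (fc d c)^[n] z - 1‖ ≤ 1 / 2) :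
    green d c z = -Real.log ‖x‖ := by
  have hdR : (1 : ℝ) < d := by exact_mod_cast (by omega : 1 < d)
  have hxp : 0 < ‖x‖ := norm_pos_iff.mpr hx
  refine tendsto_nhds_unique (gap_tendsto hd c z) ?_
  rw [tendsto_iff_norm_sub_tendsto_zero]
  have h1 : Tendsto (fun n : ℕ => Real.log 2 / (d : ℝ) ^ n) atTop (𝓝 0) :=
    (tendsto_pow_atTop_atTop_of_one_lt hdR).const_div_atTop _
  have h2 : ∀ᶠ n : ℕ in atTop, ‖x‖ ^ (d ^ n) < 1 / 2 :=
    ((tendsto_pow_atTop_nhds_zero_of_lt_one hxp.le hx1).comp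
      (tendsto_pow_atTop_atTop_of_one_lt (by omega))).eventually_lt_const (by norm_num)
  refine squeeze_zero' (Eventually.of_forall fun u => norm_nonneg _) ?_ h1
  filter_upwards [h, h2] with n hn hn2
  set u : ℂ := x ^ (d ^ n) with hu
  set w : ℂ := (fc d c)^[n] z with hw
  have hdn : (0 : ℝ) < (d : ℝ) ^ n := by positivity
  have hun : ‖u‖ = ‖x‖ ^ (d ^ n) := by rw [hu, norm_pow]
  have hup : 0 < ‖u‖ := by rw [hun]; positivity
  have h3 : 1 / 2 ≤ ‖u * w‖ := by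
    have := norm_sub_norm_le (1 : ℂ) (u * w)
    rw [norm_one, norm_sub_rev] at this
    linarith
  have h4 : ‖u * w‖ ≤ 2 := by
    have := norm_sub_norm_le (u * w) 1
    rw [norm_one] at this
    linarith
  rw [norm_mul] at h3 h4
  have h5 : 1 ≤ ‖w‖ := by
    rw [← hun] at hn2
    nlinarith [norm_nonneg w]
  have h6 : gap d c z n = Real.log ‖w‖ / (d : ℝ) ^ n := by
    unfold gap
    rw [Real.posLog_eq_log (by rw [abs_of_nonneg (norm_nonneg _)]; exact h5)]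
  have h7 : Real.log ‖u‖ = (d : ℝ) ^ n * Real.log ‖x‖ := by
    rw [hun, Real.log_pow]; push_cast; rfl
  have h8 : Real.log (‖u‖ * ‖w‖) = Real.log ‖u‖ + Real.log ‖w‖ :=
    Real.log_mul hup.ne' (by linarith)
  have h9 : |Real.log (‖u‖ * ‖w‖)| ≤ Real.log 2 := by
    rw [abs_le]
    constructor
    · rw [← Real.log_inv]
      exact Real.log_le_log (by norm_num) (by linarith)
    · exact Real.log_le_log (by linarith) h4
  have h10 : gap d c z n - -Real.log ‖x‖ = Real.log (‖u‖ * ‖w‖) / (d : ℝ) ^ n := by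
    rw [h6, h8, h7]
    field_simp
    ring
  rw [h10, Real.norm_eq_abs, abs_div, abs_of_pos hdn]
  exact div_le_div_of_nonneg_right h9 hdn.le

theorem near' (hΨ : IsPsi d Ψ) {B : ℝ} {c y : ℂ} (hc : ‖c‖ < B) (hy : y ≠ 0)
    (hy1 : KK B * ‖y‖ < 1) : ‖y‖ < rho d c ∧ ‖y * Ψ c y - 1‖ ≤ KK B / 16 * ‖y‖ := by
  have hB : 0 < B := lt_of_le_of_lt (norm_nonneg _) hc
  obtain ⟨ψ, hψ, h⟩ := hΨ.near B hB
  obtain ⟨h1, h2⟩ := h c y hc hy hy1
  refine ⟨h1, ?_⟩
  rw [h2]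
  exact eta_near hψ hc hy hy1

theorem iter_psi (hd : 2 ≤ d) (hΨ : IsPsi d Ψ) {c x : ℂ} (hx : x ≠ 0) (hxr : ‖x‖ < rho d c)
    (n : ℕ) : (fc d c)^[n] (Ψ c x) = Ψ c (x ^ (d ^ n)) := by
  have hd0 : d ≠ 0 := by omega
  induction n with
  | zero => simp
  | succ n ih =>
    rw [Function.iterate_succ_apply', ih, (hΨ.isP c).conj _ (pow_ne_zero _ hx)
      (pow_lt_rho hd hxr (pow_ne_zero _ hd0)), ← pow_mul, pow_succ]

theorem small_pow (hd : 2 ≤ d) {x : ℂ} (hx1 : ‖x‖ < 1) (K : ℝ) :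
    ∀ᶠ n : ℕ in atTop, K * ‖x ^ (d ^ n)‖ < 1 := by
  have h2 : Tendsto (fun n : ℕ => K * ‖x‖ ^ (d ^ n)) atTop (𝓝 (K * 0)) :=
    ((tendsto_pow_atTop_nhds_zero_of_lt_one (norm_nonneg _) hx1).comp
      (tendsto_pow_atTop_atTop_of_one_lt (by omega))).const_mul K
  rw [mul_zero] at h2
  filter_upwards [h2.eventually_lt_const one_pos] with n hn
  rw [norm_pow]
  exact hn

theorem green_psi (hd : 2 ≤ d) (hΨ : IsPsi d Ψ) {c x : ℂ} (hx : x ≠ 0) (hxr : ‖x‖ < rho d c) :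
    green d c (Ψ c x) = -Real.log ‖x‖ := by
  have hx1 : ‖x‖ < 1 := lt_of_lt_of_le hxr (rho_le hd c)
  apply green_of_asym hd hx hx1
  have hc : ‖c‖ < ‖c‖ + 1 := by linarith
  have hB : 0 < ‖c‖ + 1 := by positivity
  filter_upwards [small_pow hd hx1 (KK (‖c‖ + 1))] with n hn
  rw [iter_psi hd hΨ hx hxr n]
  have := (near' hΨ hc (pow_ne_zero _ hx) hn).2
  linarith

theorem norm_root (hd : 2 ≤ d) {ω : ℂ} (h : ω ^ d = 1) : ‖ω‖ = 1 :=
  norm_eq_one_of_pow_eq_one h (by omega)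

theorem root_psi (hd : 2 ≤ d) (hΨ : IsPsi d Ψ) {c x ω : ℂ} (hω : ω ^ d = 1) (hx : x ≠ 0)
    (hxr : ‖x‖ < rho d c) : ω * Ψ c (ω * x) = Ψ c x := by
  have hd0 : d ≠ 0 := by omega
  have hn := norm_root hd hω
  have hω0 : ω ≠ 0 := by
    intro h; rw [h, norm_zero] at hn; exact zero_ne_one hn
  have hs' : ∀ s ∈ Ioc (0 : ℝ) 1, (s : ℂ) * x ≠ 0 ∧ ‖(s : ℂ) * x‖ < rho d c := by
    intro s hs
    exact ⟨mul_ne_zero (by exact_mod_cast hs.1.ne') hx, lt_of_le_of_lt (norm_smul_le' hs) hxr⟩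
  have hs'' : ∀ s ∈ Ioc (0 : ℝ) 1, ω * ((s : ℂ) * x) ≠ 0 ∧ ‖ω * ((s : ℂ) * x)‖ < rho d c := by
    intro s hs
    refine ⟨mul_ne_zero hω0 (hs' s hs).1, ?_⟩
    rw [norm_mul, hn, one_mul]
    exact (hs' s hs).2
  apply ratio_disc (d := d) (F := fun y => ω * Ψ c (ω * y)) (F' := Ψ c) (by omega) hx
  · intro s hs
    apply ContinuousAt.mul continuousAt_const
    exact ContinuousAt.comp (g := Ψ c) (f := fun y => ω * y)
      ((hΨ.isP c).cont _ (hs'' s hs).1 (hs'' s hs).2) (by fun_prop)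
  · intro s hs
    exact (hΨ.isP c).cont _ (hs' s hs).1 (hs' s hs).2
  · intro s hs
    exact (hΨ.isP c).ne _ (hs' s hs).1 (hs' s hs).2
  · intro s hs
    have h1 := (hΨ.isP c).conj _ (hs'' s hs).1 (hs'' s hs).2
    have h2 := (hΨ.isP c).conj _ (hs' s hs).1 (hs' s hs).2
    rw [mul_pow, hω, one_mul, ← h2] at h1
    rw [mul_pow, hω, one_mul]
    exact add_right_cancel h1
  · have h1 : Tendsto (fun y : ℂ => ω * y) (𝓝[≠] 0) (𝓝[≠] 0) := by
      rw [tendsto_nhdsWithin_iff]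
      constructor
      · have h1 : Continuous fun x : ℂ => ω * x := by fun_prop
        have h2 := h1.tendsto 0
        simp only [mul_zero] at h2
        exact h2.mono_left nhdsWithin_le_nhds
      · filter_upwards [self_mem_nhdsWithin] with y hy
        exact mul_ne_zero hω0 hy
    refine ((hΨ.isP c).lim.comp h1).congr fun y => ?_
    simp only [Function.comp]
    ring
  · exact (hΨ.isP c).lim

theorem inj_psi (hd : 2 ≤ d) (hΨ : IsPsi d Ψ) {c x y : ℂ} (hx : x ≠ 0) (hy : y ≠ 0)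
    (hxr : ‖x‖ < rho d c) (hyr : ‖y‖ < rho d c) (h : Ψ c x = Ψ c y) : x = y := by
  have hd0 : d ≠ 0 := by omega
  -- descent
  have key : ∀ n : ℕ, ∀ x y : ℂ, x ≠ 0 → y ≠ 0 → ‖x‖ < rho d c → ‖y‖ < rho d c →
      Ψ c x = Ψ c y → x ^ (d ^ n) = y ^ (d ^ n) → x = y := by
    intro n
    induction n with
    | zero => intro x y _ _ _ _ _ h; simpa using h
    | succ n ih =>
      intro x y hx hy hxr hyr h hp
      have h1 : Ψ c (x ^ d) = Ψ c (y ^ d) := by
        rw [← (hΨ.isP c).conj x hx hxr, ← (hΨ.isP c).conj y hy hyr, h]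
      have h2 := ih (x ^ d) (y ^ d) (pow_ne_zero _ hx) (pow_ne_zero _ hy)
        (pow_lt_rho hd hxr hd0) (pow_lt_rho hd hyr hd0) h1 (by
          rw [← pow_mul, ← pow_mul, show d * d ^ n = d ^ (n + 1) by ring]
          exact hp)
      have hω : (y / x) ^ d = 1 := by
        rw [div_pow, h2, div_self (pow_ne_zero _ hy)]
      have h3 := root_psi hd hΨ hω hx hxr
      rw [div_mul_cancel₀ _ hx, h] at h3
      have h4 : y / x = 1 := mul_right_cancel₀ ((hΨ.isP c).ne y hy hyr) (by rw [h3, one_mul])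
      rw [div_eq_one_iff_eq hx] at h4
      exact h4.symm
  have hc : ‖c‖ < ‖c‖ + 1 := by linarith
  have hB : 0 < ‖c‖ + 1 := by positivity
  obtain ⟨ψ, hψ, hnear⟩ := hΨ.near _ hB
  have hx1 : ‖x‖ < 1 := lt_of_lt_of_le hxr (rho_le hd c)
  have hy1 : ‖y‖ < 1 := lt_of_lt_of_le hyr (rho_le hd c)
  obtain ⟨n, hn1, hn2⟩ := ((small_pow hd hx1 (KK (‖c‖ + 1))).and
    (small_pow hd hy1 (KK (‖c‖ + 1)))).exists
  apply key n x y hx hy hxr hyr h
  have h1 : Ψ c (x ^ (d ^ n)) = Ψ c (y ^ (d ^ n)) := by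
    rw [← iter_psi hd hΨ hx hxr, ← iter_psi hd hΨ hy hyr, h]
  have hx' := pow_ne_zero (d ^ n) hx
  have hy' := pow_ne_zero (d ^ n) hy
  rw [(hnear c _ hc hx' hn1).2, (hnear c _ hc hy' hn2).2] at h1
  have h2 := hψ.inj c (mem_ball_zero_iff.mpr hc) _ _ (inv_big hB hx' hn1) (inv_big hB hy' hn2) h1
  exact inv_injective h2

theorem surj_psi (hd : 2 ≤ d) (hΨ : IsPsi d Ψ) {c z : ℂ} (hz : green d c 0 < green d c z) :
    ∃ x : ℂ, x ≠ 0 ∧ ‖x‖ < rho d c ∧ Ψ c x = z := by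
  have hd0 : d ≠ 0 := by omega
  have hdR : (2 : ℝ) ≤ d := by exact_mod_cast hd
  have hg0 := green_nonneg hd c 0
  have hc : ‖c‖ < ‖c‖ + 1 := by linarith
  have hB : 0 < ‖c‖ + 1 := by positivity
  obtain ⟨ψ, hψ, hnear⟩ := hΨ.near _ hB
  set K : ℝ := KK (‖c‖ + 1) with hKdef
  have hK : 100 < K := KK_pos hB
  have key : ∀ n : ℕ, ∀ z : ℂ, green d c 0 < green d c z → 2 * K < ‖(fc d c)^[n] z‖ →
      ∃ x : ℂ, x ≠ 0 ∧ ‖x‖ < rho d c ∧ Ψ c x = z := by
    intro n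
    induction n with
    | zero =>
      intro z _ h2
      obtain ⟨w, hw1, hw2⟩ := hψ.surj c (mem_ball_zero_iff.mpr hc) z h2
      have hwp : 0 < ‖w‖ := by linarith
      have hw0 : w ≠ 0 := norm_pos_iff.mp hwp
      have h3 := hnear c w⁻¹ hc (inv_ne_zero hw0) (by
        rw [norm_inv, ← div_eq_mul_inv, div_lt_one hwp]; exact hw1)
      rw [inv_inv] at h3
      exact ⟨w⁻¹, inv_ne_zero hw0, h3.1, h3.2.trans hw2⟩
    | succ n ih =>
      intro z h1 h2
      have h3 : green d c (fc d c z) = d * green d c z := green_fc hd c z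
      have h4 : green d c 0 < green d c (fc d c z) := by
        rw [h3]
        nlinarith
      rw [Function.iterate_succ_apply] at h2
      obtain ⟨y, hy0, hyr, hy⟩ := ih (fc d c z) h4 h2
      obtain ⟨x₀, hx₀⟩ := IsAlgClosed.exists_pow_nat_eq y (Nat.pos_of_ne_zero hd0)
      have hx0 : x₀ ≠ 0 := by
        rintro rfl
        rw [zero_pow hd0] at hx₀
        exact hy0 hx₀.symm
      have h5 := green_psi hd hΨ hy0 hyr
      rw [hy, h3, ← hx₀, norm_pow, Real.log_pow] at h5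
      have h6 : green d c z = -Real.log ‖x₀‖ := by
        have h7 : (d : ℝ) * (green d c z + Real.log ‖x₀‖) = 0 := by linarith
        rcases mul_eq_zero.mp h7 with h8 | h8
        · linarith
        · linarith
      have hx₀r : ‖x₀‖ < rho d c := by
        rw [lt_rho_iff hx0, ← h6]; exact h1
      have h7 := (hΨ.isP c).conj x₀ hx0 hx₀r
      rw [hx₀, hy] at h7
      have h8 : (Ψ c x₀) ^ d = z ^ d := add_right_cancel h7
      have h9 := (hΨ.isP c).ne x₀ hx0 hx₀r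
      have hz0 : z ≠ 0 := by
        rintro rfl
        rw [zero_pow hd0] at h8
        exact h9 (pow_eq_zero_iff hd0 |>.mp h8)
      have hω : (Ψ c x₀ / z) ^ d = 1 := by
        rw [div_pow, h8, div_self (pow_ne_zero _ hz0)]
      have hωn := norm_root hd hω
      have hω0 : Ψ c x₀ / z ≠ 0 := div_ne_zero h9 hz0
      have h10 := root_psi hd hΨ hω hx0 hx₀r
      refine ⟨Ψ c x₀ / z * x₀, mul_ne_zero hω0 hx0, by rw [norm_mul, hωn, one_mul]; exact hx₀r, ?_⟩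
      have h11 : Ψ c x₀ / z * Ψ c (Ψ c x₀ / z * x₀) = Ψ c x₀ / z * z := by
        rw [h10, div_mul_cancel₀ _ hz0]
      exact mul_left_cancel₀ hω0 h11
  -- the orbit is unbounded
  have hpos : 0 < green d c z := by linarith
  have h1 : ∀ᶠ n : ℕ in atTop, green d c z / 2 < gap d c z n :=
    (gap_tendsto hd c z).eventually_const_lt (by linarith)
  have h2 : ∀ᶠ n : ℕ in atTop, 2 * Real.log (2 * K) / green d c z < (d : ℝ) ^ n :=
    (tendsto_pow_atTop_atTop_of_one_lt (by linarith)).eventually_gt_atTop _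
  obtain ⟨n, hn1, hn2⟩ := (h1.and h2).exists
  apply key n z hz
  by_contra hcon
  have hcon' : ‖(fc d c)^[n] z‖ ≤ 2 * K := not_lt.mp hcon
  have h3 : Real.posLog ‖(fc d c)^[n] z‖ ≤ Real.log (2 * K) := by
    have := Real.posLog_le_posLog (norm_nonneg _) hcon'
    rwa [Real.posLog_eq_log (x := 2 * K) (by rw [abs_of_nonneg (by linarith)]; linarith)] at this
  have hdn : (0 : ℝ) < (d : ℝ) ^ n := by positivity
  unfold gap at hn1
  rw [lt_div_iff₀ hdn] at hn1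
  rw [div_lt_iff₀ hpos] at hn2
  nlinarith

end Pool.Agent.Y484.LC
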