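import Pool.Agent.Y484.LC.BottA
import Pool.Agent.Y272.LC.Stm
import Pool.Agent.Y87.TY.Log

set_option autoImplicit false

/-! Inverse Boettcher coordinates of `z ^ d + c`: the coordinate of the critical value is the exterior
coordinate of the parameter. -/

open Complex Filter Topology Metric Set

namespace Pool.Agent.Y484.LC

open Pool.Agent.H712R2 Pool.Agent.H713R2 Pool.Agent.H713R2.AR Pool.Agent.Y272.TY

variable {d : ℕ} {Ψ : ℂ → ℂ → ℂ} {β : ℂ → ℂ}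

theorem path_lim {x : ℂ} (hx : x ≠ 0) :
    Tendsto (fun s : ℝ => (s : ℂ) * x) (𝓝[>] 0) (𝓝[≠] 0) := by
  rw [tendsto_nhdsWithin_iff]
  constructor
  · have h1 : Continuous fun s : ℝ => (s : ℂ) * x := by fun_prop
    have h2 := h1.tendsto 0
    simp only [Complex.ofReal_zero, zero_mul] at h2
    exact h2.mono_left nhdsWithin_le_nhds
  · filter_upwards [self_mem_nhdsWithin] with s hs
    have hs' : (0 : ℝ) < s := hs
    exact mul_ne_zero (by exact_mod_cast hs'.ne') hx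

theorem cc_bound (hβ : IsBeta d β) {x : ℂ} (hx : x ≠ 0) (hx1 : ‖x‖ < 1) :
    ‖cc β x‖ < 3 / ‖x‖ := by
  have hxp : 0 < ‖x‖ := norm_pos_iff.mpr hx
  unfold cc
  rw [norm_mul, norm_inv, div_eq_mul_inv, mul_comm]
  have := hβ.bound x (mem_ball_zero_iff.mpr hx1)
  have h2 : 0 < ‖x‖⁻¹ := by positivity
  nlinarith

theorem cc_cont (hβ : IsBeta d β) {x : ℂ} (hx : x ≠ 0) (hx1 : ‖x‖ < 1) :
    ContinuousAt (cc β) x := by
  unfold cc
  exact (continuousAt_id.inv₀ hx).mul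
    (hβ.diff.differentiableAt (isOpen_ball.mem_nhds (mem_ball_zero_iff.mpr hx1))).continuousAt

theorem exp_tend {r : ℝ} (hd : 2 ≤ d) (hr0 : 0 ≤ r) (hr1 : r < 1) (K : ℝ) :
    Tendsto (fun n : ℕ => K * r ^ (d ^ n - 1)) atTop (𝓝 0) := by
  have h1 : Tendsto (fun n : ℕ => d ^ n - 1) atTop atTop := by
    apply tendsto_atTop_mono _ tendsto_id
    intro n
    have : n < d ^ n := Nat.lt_pow_self (by omega)
    simp only [id]
    omega
  have h2 := ((tendsto_pow_atTop_nhds_zero_of_lt_one hr0 hr1).comp h1).const_mul K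
  rw [mul_zero] at h2
  exact h2

theorem BB_unif' (hd : 2 ≤ d) (hβ : IsBeta d β) {r : ℝ} (hr0 : 0 < r) (hr1 : r < 1) {δ : ℝ}
    (hδ : 0 < δ) : ∀ᶠ n : ℕ in atTop, ∀ x : ℂ, x ≠ 0 → ‖x‖ ≤ r →
      ‖x ^ (d ^ n) * P d (n + 1) (cc β x) - 1‖ ≤ δ := by
  obtain ⟨L, hL⟩ := Pool.Agent.Y87.TY.t d β hd hβ
  have h1 : Tendsto (fun n : ℕ => r ^ (d ^ (n + 1) - 1)) atTop (𝓝 0) := by
    have := (tendsto_add_atTop_iff_nat 1).mpr (exp_tend (d := d) hd hr0.le hr1 1)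
    simpa using this
  have h2 : Tendsto (fun n : ℕ => 2 * Real.log 2 * r ^ (d ^ (n + 1) - 1) /
      (1 - r ^ (d ^ (n + 1) - 1))) atTop (𝓝 0) := by
    have h3 := (h1.const_mul (2 * Real.log 2)).div (h1.const_sub 1) (by norm_num)
    rw [mul_zero, sub_zero, div_one] at h3
    exact h3
  filter_upwards [h2.eventually_lt_const (lt_min one_pos (half_pos hδ))] with n hn x hx hxr
  have hx1 : ‖x‖ < 1 := lt_of_le_of_lt hxr hr1
  have hxb : x ∈ ball (0 : ℂ) 1 := mem_ball_zero_iff.mpr hx1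
  have e1 : x ^ (d ^ n) * P d (n + 1) (cc β x) = Complex.exp (L n x) := by
    rw [hL.exp n x hxb, BB_eq hd β n x hx]
    rfl
  have hlog : 0 < Real.log 2 := Real.log_pos (by norm_num)
  have hm : d ^ (n + 1) - 1 ≠ 0 := by
    have : 1 < d ^ (n + 1) := Nat.one_lt_pow (by omega) (by omega)
    omega
  have h3 : ‖x‖ ^ (d ^ (n + 1) - 1) ≤ r ^ (d ^ (n + 1) - 1) :=
    pow_le_pow_left₀ (norm_nonneg _) hxr _
  have h4 : r ^ (d ^ (n + 1) - 1) < 1 := pow_lt_one₀ hr0.le hr1 hm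
  have h5 : ‖L n x‖ ≤ 2 * Real.log 2 * r ^ (d ^ (n + 1) - 1) / (1 - r ^ (d ^ (n + 1) - 1)) := by
    refine (hL.bound n x hxb).trans ?_
    apply div_le_div₀ (by positivity) _ (by linarith) (by linarith)
    exact mul_le_mul_of_nonneg_left h3 (by positivity)
  have h6 : ‖L n x‖ ≤ 1 := h5.trans (hn.le.trans (min_le_left _ _))
  have h7 : ‖L n x‖ ≤ δ / 2 := h5.trans (hn.le.trans (min_le_right _ _))
  rw [e1]
  refine (Complex.norm_exp_sub_one_le h6).trans ?_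
  linarith

theorem BB_ne (hd : 2 ≤ d) (hβ : IsBeta d β) {x : ℂ} (hx : x ≠ 0) (hx1 : ‖x‖ < 1) (n : ℕ) :
    P d (n + 1) (cc β x) ≠ 0 := by
  obtain ⟨L, hL⟩ := Pool.Agent.Y87.TY.t d β hd hβ
  have hxb : x ∈ ball (0 : ℂ) 1 := mem_ball_zero_iff.mpr hx1
  have e1 : x ^ (d ^ n) * P d (n + 1) (cc β x) = Complex.exp (L n x) := by
    rw [hL.exp n x hxb, BB_eq hd β n x hx]
    rfl
  intro h
  rw [h, mul_zero] at e1
  exact Complex.exp_ne_zero _ e1.symm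

theorem BB_lim (hd : 2 ≤ d) (hβ : IsBeta d β) (n : ℕ) :
    Tendsto (fun x : ℂ => x ^ (d ^ n) * P d (n + 1) (cc β x)) (𝓝[≠] 0) (𝓝 1) := by
  obtain ⟨L, hL⟩ := Pool.Agent.Y87.TY.t d β hd hβ
  have h1 : ContinuousAt (L n) 0 :=
    ((hL.diff n).differentiableAt (ball_mem_nhds 0 one_pos)).continuousAt
  have h2 : Tendsto (fun x : ℂ => Complex.exp (L n x)) (𝓝[≠] 0) (𝓝 1) := by
    have h3 := (Complex.continuous_exp.tendsto (L n 0)).comp h1.tendsto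
    rw [hL.zero, Complex.exp_zero] at h3
    exact h3.mono_left nhdsWithin_le_nhds
  refine h2.congr' ?_
  have h4 : ∀ᶠ x : ℂ in 𝓝[≠] 0, x ∈ ball (0 : ℂ) 1 :=
    (ball_mem_nhds (0 : ℂ) one_pos : ball (0 : ℂ) 1 ∈ 𝓝 0) |> mem_nhdsWithin_of_mem_nhds
  filter_upwards [h4, self_mem_nhdsWithin] with x hx hx0
  rw [hL.exp n x hx, BB_eq hd β n x hx0]
  rfl

theorem green_cc (hd : 2 ≤ d) (hβ : IsBeta d β) {x : ℂ} (hx : x ≠ 0) (hx1 : ‖x‖ < 1) :
    green d (cc β x) (cc β x) = -Real.log ‖x‖ := by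
  apply green_of_asym hd hx hx1
  filter_upwards [BB_unif' hd hβ (norm_pos_iff.mpr hx) hx1 (by norm_num : (0 : ℝ) < 1 / 2)] with n hn
  rw [iter_c hd]
  exact hn x hx le_rfl

theorem green_cc0 (hd : 2 ≤ d) (hβ : IsBeta d β) {x : ℂ} (hx : x ≠ 0) (hx1 : ‖x‖ < 1) :
    green d (cc β x) 0 = -Real.log ‖x‖ / d := by
  have hdR : (0 : ℝ) < d := by exact_mod_cast (by omega : 0 < d)
  have h1 := green_fc hd (cc β x) 0
  have h2 : fc d (cc β x) 0 = cc β x := by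
    unfold fc
    rw [zero_pow (by omega), zero_add]
  rw [h2, green_cc hd hβ hx hx1] at h1
  rw [eq_div_iff hdR.ne']
  linarith

theorem rho_cc (hd : 2 ≤ d) (hβ : IsBeta d β) {x : ℂ} (hx : x ≠ 0) (hx1 : ‖x‖ < 1) :
    ‖x‖ < rho d (cc β x) := by
  have hdR : (1 : ℝ) < d := by exact_mod_cast (by omega : 1 < d)
  rw [lt_rho_iff hx, green_cc0 hd hβ hx hx1]
  have h1 : Real.log ‖x‖ < 0 := Real.log_neg (norm_pos_iff.mpr hx) hx1
  rw [div_lt_iff₀ (by linarith)]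
  nlinarith

/-- the estimate near infinity, with constants depending on the parameter -/
theorem near_cc (_hd : 2 ≤ d) (hΨ : IsPsi d Ψ) (hβ : IsBeta d β) {x : ℂ} (hx : x ≠ 0)
    (hx1 : ‖x‖ < 1) {m : ℕ} (hm : 1 ≤ m) (hsm : 400 * ‖x‖ ^ (m - 1) < 1) :
    KK (3 / ‖x‖) * ‖x‖ ^ m ≤ 400 * ‖x‖ ^ (m - 1) ∧
    ‖x ^ m * Ψ (cc β x) (x ^ m) - 1‖ ≤ 400 * ‖x‖ ^ (m - 1) := by
  have hxp : 0 < ‖x‖ := norm_pos_iff.mpr hx
  have h1 : KK (3 / ‖x‖) * ‖x‖ ^ m ≤ 400 * ‖x‖ ^ (m - 1) := by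
    obtain ⟨l, rfl⟩ : ∃ l, m = l + 1 := ⟨m - 1, by omega⟩
    rw [Nat.add_sub_cancel, pow_succ]
    unfold KK
    have h2 : 100 * (3 / ‖x‖ + 1) * (‖x‖ ^ l * ‖x‖) = (300 + 100 * ‖x‖) * ‖x‖ ^ l := by
      field_simp
      ring
    rw [h2]
    have h3 : 0 ≤ ‖x‖ ^ l := by positivity
    nlinarith
  refine ⟨h1, ?_⟩
  have h2 := (near' hΨ (cc_bound hβ hx hx1) (pow_ne_zero m hx) (by rw [norm_pow]; linarith)).2
  refine h2.trans ?_
  rw [norm_pow]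
  have h3 : 0 ≤ KK (3 / ‖x‖) * ‖x‖ ^ m := by unfold KK; positivity
  linarith

theorem sum_lower (hd : 2 ≤ d) : ∃ δ : ℝ, 0 < δ ∧ δ ≤ 1 / 2 ∧ ∀ a b : ℂ, ‖a - 1‖ ≤ δ → ‖b - 1‖ ≤ δ →
    3 / 2 < ‖∑ i ∈ Finset.range d, a ^ i * b ^ (d - 1 - i)‖ := by
  have h1 : ContinuousAt (fun p : ℂ × ℂ => ‖∑ i ∈ Finset.range d, p.1 ^ i * p.2 ^ (d - 1 - i)‖)
      (1, 1) := by
    apply Continuous.continuousAt
    fun_prop
  have h2 : (3 / 2 : ℝ) < (fun p : ℂ × ℂ =>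
      ‖∑ i ∈ Finset.range d, p.1 ^ i * p.2 ^ (d - 1 - i)‖) (1, 1) := by
    have : (2 : ℝ) ≤ d := by exact_mod_cast hd
    simp
    linarith
  have h3 := h1.eventually (lt_mem_nhds h2)
  rw [Metric.eventually_nhds_iff] at h3
  obtain ⟨ε, hε, h4⟩ := h3
  refine ⟨min (ε / 2) (1 / 2), by positivity, min_le_right _ _, ?_⟩
  intro a b ha hb
  apply h4 (y := (a, b))
  rw [Prod.dist_eq]
  apply max_lt
  · rw [dist_eq_norm]; exact lt_of_le_of_lt (ha.trans (min_le_left _ _)) (by linarith)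
  · rw [dist_eq_norm]; exact lt_of_le_of_lt (hb.trans (min_le_left _ _)) (by linarith)

theorem high (hd : 2 ≤ d) (hΨ : IsPsi d Ψ) (hβ : IsBeta d β) {r : ℝ} (hr0 : 0 < r) (hr1 : r < 1) :
    ∃ N : ℕ, ∀ x : ℂ, x ≠ 0 → ‖x‖ ≤ r → Ψ (cc β x) (x ^ (d ^ N)) = P d (N + 1) (cc β x) := by
  obtain ⟨δ, hδ0, hδ1, hS⟩ := sum_lower hd
  have h1 := BB_unif' hd hβ hr0 hr1 hδ0
  have h2 := (exp_tend (d := d) hd hr0.le hr1 400).eventually_lt_const (lt_min one_pos hδ0)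
  obtain ⟨N, hN⟩ := eventually_atTop.mp (h1.and h2)
  refine ⟨N, fun x hx hxr => ?_⟩
  have hx1 : ‖x‖ < 1 := lt_of_le_of_lt hxr hr1
  set c : ℂ := cc β x with hc
  have hrho := rho_cc hd hβ hx hx1
  set a : ℕ → ℂ := fun n => x ^ (d ^ (N + n)) * P d (N + n + 1) c with ha
  set b : ℕ → ℂ := fun n => x ^ (d ^ (N + n)) * Ψ c (x ^ (d ^ (N + n))) with hb
  have ha1 : ∀ n, ‖a n - 1‖ ≤ δ := fun n => (hN (N + n) (by omega)).1 x hx hxr
  have hb1 : ∀ n, ‖b n - 1‖ ≤ δ := by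
    intro n
    have h3 := (hN (N + n) (by omega)).2
    have h4 : 400 * ‖x‖ ^ (d ^ (N + n) - 1) ≤ 400 * r ^ (d ^ (N + n) - 1) := by gcongr
    have h5 := lt_of_le_of_lt h4 h3
    have h6 := (near_cc hd hΨ hβ hx hx1 (Nat.one_le_pow (N + n) d (by omega))
      (lt_of_lt_of_le h5 (min_le_left _ _))).2
    exact h6.trans (h5.le.trans (min_le_right _ _))
  have hstep : ∀ n, a (n + 1) - b (n + 1) =
      (∑ i ∈ Finset.range d, (a n) ^ i * (b n) ^ (d - 1 - i)) * (a n - b n) := by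
    intro n
    rw [geom_sum₂_mul]
    simp only [ha, hb]
    have e1 : x ^ (d ^ (N + (n + 1))) = (x ^ (d ^ (N + n))) ^ d := by
      rw [← pow_mul, ← pow_succ, add_assoc]
    have e2 := (hΨ.isP c).conj (x ^ (d ^ (N + n))) (pow_ne_zero _ hx)
      (pow_lt_rho hd hrho (pow_ne_zero _ (by omega)))
    have e3 := P_succ d (N + n + 1) c
    rw [e1, show N + (n + 1) + 1 = N + n + 1 + 1 by ring, e3, ← e2, mul_pow, mul_pow]
    unfold fc
    ring
  have hgrow : ∀ n : ℕ, (3 / 2 : ℝ) ^ n * ‖a 0 - b 0‖ ≤ ‖a n - b n‖ := by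
    intro n
    induction n with
    | zero => simp
    | succ n ih =>
      rw [hstep, norm_mul, pow_succ]
      have := hS (a n) (b n) (ha1 n) (hb1 n)
      have h8 : 0 ≤ (3 / 2 : ℝ) ^ n * ‖a 0 - b 0‖ := by positivity
      nlinarith [norm_nonneg (a n - b n)]
  have hD0 : a 0 - b 0 = 0 := by
    by_contra hne
    have hpos : 0 < ‖a 0 - b 0‖ := norm_pos_iff.mpr hne
    obtain ⟨n, hn⟩ := pow_unbounded_of_one_lt (1 / ‖a 0 - b 0‖) (by norm_num : (1 : ℝ) < 3 / 2)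
    rw [div_lt_iff₀ hpos] at hn
    have h9 : ‖a n - b n‖ ≤ 1 := by
      have : a n - b n = (a n - 1) - (b n - 1) := by ring
      rw [this]
      refine (norm_sub_le _ _).trans ?_
      linarith [ha1 n, hb1 n]
    linarith [hgrow n]
  have h10 : x ^ (d ^ N) * P d (N + 1) c = x ^ (d ^ N) * Ψ c (x ^ (d ^ N)) := by
    have := sub_eq_zero.mp hD0
    simpa only [ha, hb, add_zero] using this
  exact (mul_left_cancel₀ (pow_ne_zero _ hx) h10).symm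

/-- the coordinate as a root -/
theorem root_form (hd : 2 ≤ d) (hΨ : IsPsi d Ψ) {B : ℝ} {c y : ℂ} (hc : ‖c‖ < B) (hy : y ≠ 0)
    (hyr : ‖y‖ < rho d c) (hy1 : KK B * ‖y‖ ^ d < 1) :
    ‖y ^ d * Ψ c (y ^ d) - c * y ^ d - 1‖ ≤ KK B * ‖y‖ ^ d / 8 ∧
    y * Ψ c y = Complex.exp (Complex.log (y ^ d * Ψ c (y ^ d) - c * y ^ d) / d) := by
  have hd0 : d ≠ 0 := by omega
  have hdC : (d : ℂ) ≠ 0 := by exact_mod_cast hd0
  have hB : 0 < B := lt_of_le_of_lt (norm_nonneg _) hc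
  have hK := KK_pos hB
  set T : ℂ → ℂ := fun u => u ^ d * Ψ c (u ^ d) - c * u ^ d with hT
  have hTb : ∀ u : ℂ, u ≠ 0 → ‖u‖ ≤ ‖y‖ → ‖u ^ d‖ < rho d c ∧ ‖T u - 1‖ ≤ KK B * ‖u‖ ^ d / 8 := by
    intro u hu huy
    have h0 : ‖u‖ ^ d ≤ ‖y‖ ^ d := pow_le_pow_left₀ (norm_nonneg _) huy _
    have h1 : KK B * ‖u ^ d‖ < 1 := by
      rw [norm_pow]
      nlinarith
    obtain ⟨h2, h3⟩ := near' hΨ hc (pow_ne_zero d hu) h1
    refine ⟨h2, ?_⟩
    have h4 : T u - 1 = (u ^ d * Ψ c (u ^ d) - 1) - c * u ^ d := by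
      simp only [hT]; ring
    rw [h4]
    refine (norm_sub_le _ _).trans ?_
    rw [norm_mul]
    have h5 : ‖c‖ * ‖u ^ d‖ ≤ KK B / 100 * ‖u ^ d‖ := by
      apply mul_le_mul_of_nonneg_right _ (norm_nonneg _)
      unfold KK
      linarith
    have h6 : 0 ≤ KK B * ‖u ^ d‖ := by positivity
    rw [norm_pow] at h3 h5 h6 ⊢
    linarith
  have hslit : ∀ u : ℂ, u ≠ 0 → ‖u‖ ≤ ‖y‖ → T u ∈ slitPlane := by
    intro u hu huy
    have h1 := (hTb u hu huy).2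
    have h0 : ‖u‖ ^ d ≤ ‖y‖ ^ d := pow_le_pow_left₀ (norm_nonneg _) huy _
    have h2 : ‖T u - 1‖ < 1 := by nlinarith
    have := mem_slitPlane_of_norm_lt_one h2
    rwa [add_sub_cancel] at this
  refine ⟨(hTb y hy le_rfl).2, ?_⟩
  have hs1 : ∀ s ∈ Ioc (0 : ℝ) 1, (s : ℂ) * y ≠ 0 := fun s hs =>
    mul_ne_zero (by exact_mod_cast hs.1.ne') hy
  have hs2 : ∀ s ∈ Ioc (0 : ℝ) 1, ‖(s : ℂ) * y‖ ≤ ‖y‖ := fun s hs => norm_smul_le' hs
  have hTc : ∀ u : ℂ, u ≠ 0 → ‖u‖ ≤ ‖y‖ → ContinuousAt T u := by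
    intro u hu huy
    have h1 : ContinuousAt (fun u : ℂ => Ψ c (u ^ d)) u :=
      ContinuousAt.comp (g := Ψ c) (f := fun u : ℂ => u ^ d)
        ((hΨ.isP c).cont _ (pow_ne_zero d hu) (hTb u hu huy).1) (by fun_prop)
    simp only [hT]
    exact ((continuousAt_id.pow d).mul h1).sub (continuousAt_const.mul (continuousAt_id.pow d))
  have hTl : Tendsto T (𝓝[≠] 0) (𝓝 1) := by
    have h1 : Tendsto (fun u : ℂ => u ^ d * Ψ c (u ^ d)) (𝓝[≠] 0) (𝓝 1) :=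
      (hΨ.isP c).lim.comp (pow_lim hd0)
    have h2 : Tendsto (fun u : ℂ => c * u ^ d) (𝓝[≠] 0) (𝓝 0) := by
      have h3 : Continuous fun u : ℂ => c * u ^ d := by fun_prop
      have h4 := h3.tendsto 0
      simp only [zero_pow hd0, mul_zero] at h4
      exact h4.mono_left nhdsWithin_le_nhds
    have := h1.sub h2
    rw [sub_zero] at this
    exact this
  have key : Ψ c y = y⁻¹ * Complex.exp (Complex.log (T y) / d) := by
    apply ratio_disc (d := d) (F := Ψ c) (F' := fun u => u⁻¹ * Complex.exp (Complex.log (T u) / d))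
      (by omega) hy
    · intro s hs
      exact (hΨ.isP c).cont _ (hs1 s hs) (lt_of_le_of_lt (hs2 s hs) hyr)
    · intro s hs
      have h1 := (hTc _ (hs1 s hs) (hs2 s hs)).clog (hslit _ (hs1 s hs) (hs2 s hs))
      exact (continuousAt_id.inv₀ (hs1 s hs)).mul (h1.div_const _).cexp
    · intro s hs
      exact mul_ne_zero (inv_ne_zero (hs1 s hs)) (Complex.exp_ne_zero _)
    · intro s hs
      have h1 := (hΨ.isP c).conj _ (hs1 s hs) (lt_of_le_of_lt (hs2 s hs) hyr)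
      have h2 : Complex.exp (Complex.log (T ((s : ℂ) * y)) / d) ^ d = T ((s : ℂ) * y) := by
        rw [← Complex.exp_nat_mul, mul_div_cancel₀ _ hdC,
          Complex.exp_log (slitPlane_ne_zero (hslit _ (hs1 s hs) (hs2 s hs)))]
      rw [mul_pow, h2]
      simp only [hT]
      rw [← h1]
      unfold fc
      have h3 := pow_ne_zero d (hs1 s hs)
      rw [inv_pow]
      field_simp
      ring
    · exact (hΨ.isP c).lim
    · have h1 : Tendsto (fun u : ℂ => Complex.exp (Complex.log (T u) / d)) (𝓝[≠] 0) (𝓝 1) := by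
        have h2 : ContinuousAt Complex.log 1 := continuousAt_clog (by simp)
        have h3 := (h2.tendsto.comp hTl).div_const (d : ℂ)
        rw [Complex.log_one, zero_div] at h3
        have h4 := (Complex.continuous_exp.tendsto 0).comp h3
        rw [Complex.exp_zero] at h4
        exact h4
      refine h1.congr' ?_
      filter_upwards [self_mem_nhdsWithin] with u hu
      have hu' : u ≠ 0 := hu
      rw [mul_inv_cancel_left₀ hu']
  rw [key, mul_inv_cancel_left₀ hy]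

theorem low_lim (hd : 2 ≤ d) (hΨ : IsPsi d Ψ) (hβ : IsBeta d β) (k : ℕ) :
    Tendsto (fun x : ℂ => x ^ (d ^ k) * Ψ (cc β x) (x ^ (d ^ k))) (𝓝[≠] 0) (𝓝 1) := by
  have hd0 : d ≠ 0 := by omega
  have hball : ∀ᶠ x : ℂ in 𝓝[≠] 0, x ∈ ball (0 : ℂ) 1 :=
    (ball_mem_nhds (0 : ℂ) one_pos : ball (0 : ℂ) 1 ∈ 𝓝 0) |> mem_nhdsWithin_of_mem_nhds
  have hpw : ∀ m : ℕ, 2 ≤ m → Tendsto (fun x : ℂ => 400 * ‖x‖ ^ (m - 1)) (𝓝[≠] 0) (𝓝 0) := by
    intro m hm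
    have h1 : Continuous fun x : ℂ => 400 * ‖x‖ ^ (m - 1) := by fun_prop
    have h2 := h1.tendsto 0
    rw [norm_zero, zero_pow (by omega), mul_zero] at h2
    exact h2.mono_left nhdsWithin_le_nhds
  rcases Nat.eq_zero_or_pos k with hk | hk
  · subst hk
    simp only [pow_zero, pow_one]
    set T : ℂ → ℂ := fun x => x ^ d * Ψ (cc β x) (x ^ d) - cc β x * x ^ d with hT
    have hev : ∀ᶠ x : ℂ in 𝓝[≠] 0, ‖T x - 1‖ ≤ 400 * ‖x‖ ^ (d - 1) ∧
        x * Ψ (cc β x) x = Complex.exp (Complex.log (T x) / d) := by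
      filter_upwards [hball, self_mem_nhdsWithin, (hpw d hd).eventually_lt_const one_pos]
        with x hxb hx0 hx2
      have hx1 : ‖x‖ < 1 := mem_ball_zero_iff.mp hxb
      have h1 := (near_cc hd hΨ hβ hx0 hx1 (by omega : 1 ≤ d) hx2).1
      have h2 := root_form hd hΨ (cc_bound hβ hx0 hx1) hx0 (rho_cc hd hβ hx0 hx1)
        (lt_of_le_of_lt h1 hx2)
      have h3 : 0 ≤ KK (3 / ‖x‖) * ‖x‖ ^ d := by unfold KK; positivity
      exact ⟨h2.1.trans (by linarith), h2.2⟩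
    have hTl : Tendsto T (𝓝[≠] 0) (𝓝 1) := by
      rw [tendsto_iff_norm_sub_tendsto_zero]
      refine squeeze_zero' (Eventually.of_forall fun u => norm_nonneg _) ?_ (hpw d hd)
      filter_upwards [hev] with x hx using hx.1
    have h1 : Tendsto (fun u : ℂ => Complex.exp (Complex.log (T u) / d)) (𝓝[≠] 0) (𝓝 1) := by
      have h2 : ContinuousAt Complex.log 1 := continuousAt_clog (by simp)
      have h3 := (h2.tendsto.comp hTl).div_const (d : ℂ)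
      rw [Complex.log_one, zero_div] at h3
      have h4 := (Complex.continuous_exp.tendsto 0).comp h3
      rw [Complex.exp_zero] at h4
      exact h4
    refine h1.congr' ?_
    filter_upwards [hev] with x hx using hx.2.symm
  · have hm : 2 ≤ d ^ k := by
      calc 2 ≤ d := hd
        _ = d ^ 1 := (pow_one d).symm
        _ ≤ d ^ k := Nat.pow_le_pow_right (by omega) hk
    rw [tendsto_iff_norm_sub_tendsto_zero]
    refine squeeze_zero' (Eventually.of_forall fun u => norm_nonneg _) ?_ (hpw (d ^ k) hm)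
    filter_upwards [hball, self_mem_nhdsWithin, (hpw (d ^ k) hm).eventually_lt_const one_pos]
      with x hxb hx0 hx2
    exact (near_cc hd hΨ hβ hx0 (mem_ball_zero_iff.mp hxb) (by omega) hx2).2

theorem descend (hd : 2 ≤ d) (hΨ : IsPsi d Ψ) (hβ : IsBeta d β) {r : ℝ} (hr1 : r < 1)
    (k : ℕ)
    (hk : ∀ x : ℂ, x ≠ 0 → ‖x‖ ≤ r → Ψ (cc β x) (x ^ (d ^ (k + 1))) = P d (k + 2) (cc β x)) :
    ∀ x : ℂ, x ≠ 0 → ‖x‖ ≤ r → Ψ (cc β x) (x ^ (d ^ k)) = P d (k + 1) (cc β x) := by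
  intro x hx hxr
  have hd0 : d ≠ 0 := by omega
  have hs1 : ∀ s ∈ Ioc (0 : ℝ) 1, (s : ℂ) * x ≠ 0 := fun s hs =>
    mul_ne_zero (by exact_mod_cast hs.1.ne') hx
  have hs2 : ∀ s ∈ Ioc (0 : ℝ) 1, ‖(s : ℂ) * x‖ ≤ r := fun s hs => (norm_smul_le' hs).trans hxr
  have hs3 : ∀ s ∈ Ioc (0 : ℝ) 1, ‖(s : ℂ) * x‖ < 1 := fun s hs => lt_of_le_of_lt (hs2 s hs) hr1
  have key := ratio_path (d := d) (by omega)
    (q := fun s : ℝ => Ψ (cc β (s * x)) ((s * x) ^ (d ^ k)) / P d (k + 1) (cc β (s * x))) (b := 1)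
    ?_ ?_ ?_ 1 ⟨one_pos, le_rfl⟩
  · simp only [Complex.ofReal_one, one_mul] at key
    rwa [div_eq_one_iff_eq (BB_ne hd hβ hx (lt_of_le_of_lt hxr hr1) k)] at key
  · intro s hs
    apply ContinuousAt.continuousWithinAt
    have hp : ContinuousAt (fun s : ℝ => (s : ℂ) * x) s := by fun_prop
    have h1 : ContinuousAt (fun s : ℝ => cc β ((s : ℂ) * x)) s :=
      ContinuousAt.comp (g := cc β) (f := fun s : ℝ => (s : ℂ) * x)
        (cc_cont hβ (hs1 s hs) (hs3 s hs)) hp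
    have h2 : ContinuousAt (fun s : ℝ => (cc β ((s : ℂ) * x), ((s : ℂ) * x) ^ (d ^ k))) s :=
      h1.prodMk (hp.pow _)
    have h3 : ContinuousAt (fun p : ℂ × ℂ => Ψ p.1 p.2)
        (cc β ((s : ℂ) * x), ((s : ℂ) * x) ^ (d ^ k)) :=
      hΨ.cont _ _ (pow_ne_zero _ (hs1 s hs))
        (pow_lt_rho hd (rho_cc hd hβ (hs1 s hs) (hs3 s hs)) (pow_ne_zero _ hd0))
    have h4 : ContinuousAt (fun s : ℝ => Ψ (cc β (s * x)) ((s * x) ^ (d ^ k))) s :=
      ContinuousAt.comp (g := fun p : ℂ × ℂ => Ψ p.1 p.2)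
        (f := fun s : ℝ => (cc β ((s : ℂ) * x), ((s : ℂ) * x) ^ (d ^ k))) h3 h2
    have h5 : ContinuousAt (fun s : ℝ => P d (k + 1) (cc β (s * x))) s :=
      ContinuousAt.comp (g := P d (k + 1)) (f := fun s : ℝ => cc β ((s : ℂ) * x))
        (continuous_P d (k + 1)).continuousAt h1
    exact h4.div h5 (BB_ne hd hβ (hs1 s hs) (hs3 s hs) k)
  · intro s hs
    have h1 := (hΨ.isP (cc β (s * x))).conj (((s : ℂ) * x) ^ (d ^ k)) (pow_ne_zero _ (hs1 s hs))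
      (pow_lt_rho hd (rho_cc hd hβ (hs1 s hs) (hs3 s hs)) (pow_ne_zero _ hd0))
    rw [← pow_mul, ← pow_succ, hk _ (hs1 s hs) (hs2 s hs), P_succ] at h1
    have h2 : Ψ (cc β (s * x)) (((s : ℂ) * x) ^ (d ^ k)) ^ d = P d (k + 1) (cc β (s * x)) ^ d :=
      add_right_cancel h1
    rw [div_pow, h2, div_self (pow_ne_zero _ (BB_ne hd hβ (hs1 s hs) (hs3 s hs) k))]
  · have h1 := ((low_lim hd hΨ hβ k).comp (path_lim hx)).div ((BB_lim hd hβ k).comp (path_lim hx))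
      one_ne_zero
    rw [div_one] at h1
    refine h1.congr' ?_
    filter_upwards [self_mem_nhdsWithin] with s hs
    have hs' : (0 : ℝ) < s := hs
    have h2 : (s : ℂ) * x ≠ 0 := mul_ne_zero (by exact_mod_cast hs'.ne') hx
    simp only [Function.comp, Pi.div_apply]
    rw [mul_div_mul_left _ _ (pow_ne_zero _ h2)]

theorem par_psi (hd : 2 ≤ d) (hΨ : IsPsi d Ψ) (hβ : IsBeta d β) {x : ℂ} (hx : x ≠ 0)
    (hx1 : ‖x‖ < 1) : Ψ (cc β x) x = cc β x := by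
  obtain ⟨N, hN⟩ := high hd hΨ hβ (norm_pos_iff.mpr hx) hx1
  have key : ∀ m : ℕ, (∀ y : ℂ, y ≠ 0 → ‖y‖ ≤ ‖x‖ →
      Ψ (cc β y) (y ^ (d ^ m)) = P d (m + 1) (cc β y)) →
      ∀ y : ℂ, y ≠ 0 → ‖y‖ ≤ ‖x‖ → Ψ (cc β y) (y ^ (d ^ 0)) = P d (0 + 1) (cc β y) := by
    intro m
    induction m with
    | zero => exact fun h => h
    | succ m ih => exact fun h => ih (descend hd hΨ hβ hx1 m h)
  have h1 := key N hN x hx le_rfl
  rw [pow_zero, pow_one, zero_add, P_one hd] at h1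
  exact h1

end Pool.Agent.Y484.LC
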