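import Pool.Agent.Y484.LC.Ni
import Pool.Agent.H713R2.AR.GF

set_option autoImplicit false

/-! Inverse Boettcher coordinates of `z ^ d + c`: extension to the whole domain, for the parameters in
a disc. -/

open Complex Filter Topology Metric Set

namespace Pool.Agent.Y484.LC

open Pool.Agent.H712R2 Pool.Agent.H713R2 Pool.Agent.H713R2.AR

/-! ### the ratio lemma -/

theorem ratio_path {d : ℕ} (hd : 1 ≤ d) {q : ℝ → ℂ} {b : ℝ} (hc : ContinuousOn q (Ioc 0 b))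
    (hpow : ∀ s ∈ Ioc 0 b, q s ^ d = 1) (hlim : Tendsto q (𝓝[>] 0) (𝓝 1)) :
    ∀ s ∈ Ioc 0 b, q s = 1 := by
  intro s hs
  have hb : 0 < b := lt_of_lt_of_le hs.1 hs.2
  have hfin : {z : ℂ | z ^ d = 1}.Finite := by
    refine ((Polynomial.nthRoots d (1 : ℂ)).toFinset.finite_toSet).subset ?_
    intro z hz
    have hz' : z ^ d = 1 := hz
    simp only [Finset.mem_coe, Multiset.mem_toFinset]
    exact (Polynomial.mem_nthRoots (by omega)).mpr hz'
  have hsub : (q '' Ioc 0 b).Subsingleton := by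
    apply hfin.countable.isTotallyDisconnected
    · rintro _ ⟨s', hs', rfl⟩
      exact hpow s' hs'
    · exact isPreconnected_Ioc.image q hc
  have h1 : Tendsto (fun _ : ℝ => q s) (𝓝[>] 0) (𝓝 1) := by
    refine hlim.congr' ?_
    filter_upwards [Ioc_mem_nhdsGT hb] with s' hs'
    exact hsub ⟨s', hs', rfl⟩ ⟨s, hs, rfl⟩
  exact tendsto_nhds_unique tendsto_const_nhds h1

theorem ratio_disc {d : ℕ} (hd : 1 ≤ d) {F F' : ℂ → ℂ} {x : ℂ} (hx : x ≠ 0)
    (hF : ∀ s ∈ Ioc (0 : ℝ) 1, ContinuousAt F (s * x))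
    (hF' : ∀ s ∈ Ioc (0 : ℝ) 1, ContinuousAt F' (s * x))
    (hne : ∀ s ∈ Ioc (0 : ℝ) 1, F' (s * x) ≠ 0)
    (hpow : ∀ s ∈ Ioc (0 : ℝ) 1, F (s * x) ^ d = F' (s * x) ^ d)
    (hl : Tendsto (fun y => y * F y) (𝓝[≠] 0) (𝓝 1))
    (hl' : Tendsto (fun y => y * F' y) (𝓝[≠] 0) (𝓝 1)) : F x = F' x := by
  have hpath : Tendsto (fun s : ℝ => (s : ℂ) * x) (𝓝[>] 0) (𝓝[≠] 0) := by
    rw [tendsto_nhdsWithin_iff]
    constructor
    · have h1 : Continuous fun s : ℝ => (s : ℂ) * x := by fun_prop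
      have h2 := h1.tendsto 0
      simp only [Complex.ofReal_zero, zero_mul] at h2
      exact h2.mono_left nhdsWithin_le_nhds
    · filter_upwards [self_mem_nhdsWithin] with s hs
      have hs' : (0 : ℝ) < s := hs
      exact mul_ne_zero (by exact_mod_cast hs'.ne') hx
  have key := ratio_path hd (q := fun s : ℝ => F (s * x) / F' (s * x)) (b := 1) ?_ ?_ ?_ 1
    ⟨one_pos, le_rfl⟩
  · simp only [Complex.ofReal_one, one_mul] at key
    have h1 := hne 1 ⟨one_pos, le_rfl⟩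
    simp only [Complex.ofReal_one, one_mul] at h1
    rwa [div_eq_one_iff_eq h1] at key
  · intro s hs
    apply ContinuousAt.continuousWithinAt
    have hc : ContinuousAt (fun s : ℝ => (s : ℂ) * x) s := by fun_prop
    have h1 : ContinuousAt (fun s : ℝ => F (s * x)) s :=
      ContinuousAt.comp (f := fun s : ℝ => (s : ℂ) * x) (g := F) (hF s hs) hc
    have h2 : ContinuousAt (fun s : ℝ => F' (s * x)) s :=
      ContinuousAt.comp (f := fun s : ℝ => (s : ℂ) * x) (g := F') (hF' s hs) hc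
    exact h1.div h2 (hne s hs)
  · intro s hs
    rw [div_pow, hpow s hs, div_self (pow_ne_zero _ (hne s hs))]
  · have h1 := (hl.comp hpath).div (hl'.comp hpath) one_ne_zero
    rw [div_one] at h1
    refine h1.congr' ?_
    filter_upwards [self_mem_nhdsWithin] with s hs
    have hs' : (0 : ℝ) < s := hs
    have h2 : (s : ℂ) * x ≠ 0 := mul_ne_zero (by exact_mod_cast hs'.ne') hx
    simp only [Function.comp, Pi.div_apply]
    rw [mul_div_mul_left _ _ h2]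

/-! ### the domains -/

/-- the domain of the `n`-th extension -/
def EE (d : ℕ) (B : ℝ) (n : ℕ) : Set (ℂ × ℂ) :=
  {p | ‖p.1‖ < B ∧ p.2 ≠ 0 ∧ KK B * ‖p.2‖ ^ (d ^ n) < 1 ∧
    ∀ i ≤ n, KK B * ‖p.2‖ ^ (d ^ n) * ‖P d i p.1‖ < 1}

theorem isOpen_EE (d : ℕ) (B : ℝ) (n : ℕ) : IsOpen (EE d B n) := by
  have h1 : EE d B n = {p : ℂ × ℂ | ‖p.1‖ < B} ∩ ({p : ℂ × ℂ | p.2 ≠ 0} ∩
      ({p : ℂ × ℂ | KK B * ‖p.2‖ ^ (d ^ n) < 1} ∩
      ⋂ i ∈ Set.Iic n, {p : ℂ × ℂ | KK B * ‖p.2‖ ^ (d ^ n) * ‖P d i p.1‖ < 1})) := by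
    ext p
    simp only [EE, mem_inter_iff, mem_iInter, mem_ofPred_eq, Set.mem_Iic]
  rw [h1]
  refine (isOpen_lt (by fun_prop) continuous_const).inter ((isOpen_ne.preimage continuous_snd).inter
    ((isOpen_lt (by fun_prop) continuous_const).inter ?_))
  apply Set.Finite.isOpen_biInter (Set.finite_Iic n)
  intro i _
  apply isOpen_lt _ continuous_const
  exact (continuous_const.mul (continuous_snd.norm.pow _)).mul
    ((continuous_P d i).comp continuous_fst).norm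

theorem KK_pos {B : ℝ} (hB : 0 < B) : 100 < KK B := by unfold KK; linarith

theorem EE_B {d : ℕ} {B : ℝ} {n : ℕ} {c x : ℂ} (h : (c, x) ∈ EE d B n) : 0 < B :=
  lt_of_le_of_lt (norm_nonneg _) h.1

theorem norm_smul_le' {x : ℂ} {s : ℝ} (hs : s ∈ Ioc (0 : ℝ) 1) : ‖(s : ℂ) * x‖ ≤ ‖x‖ := by
  rw [norm_mul, Complex.norm_real, Real.norm_eq_abs, abs_of_pos hs.1]
  exact mul_le_of_le_one_left (norm_nonneg _) hs.2

theorem EE_star {d : ℕ} {B : ℝ} {n : ℕ} {c x : ℂ} (h : (c, x) ∈ EE d B n) {s : ℝ}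
    (hs : s ∈ Ioc (0 : ℝ) 1) : (c, (s : ℂ) * x) ∈ EE d B n := by
  have hK := KK_pos (EE_B h)
  obtain ⟨h1, h2, h3, h4⟩ := h
  simp only at h1 h2 h3 h4
  have h5 : ‖(s : ℂ) * x‖ ^ (d ^ n) ≤ ‖x‖ ^ (d ^ n) :=
    pow_le_pow_left₀ (norm_nonneg _) (norm_smul_le' hs) _
  have h6 : KK B * ‖(s : ℂ) * x‖ ^ (d ^ n) ≤ KK B * ‖x‖ ^ (d ^ n) :=
    mul_le_mul_of_nonneg_left h5 (by linarith)
  refine ⟨h1, mul_ne_zero (by exact_mod_cast hs.1.ne') h2, lt_of_le_of_lt h6 h3, ?_⟩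
  intro i hi
  exact lt_of_le_of_lt (mul_le_mul_of_nonneg_right h6 (norm_nonneg _)) (h4 i hi)

theorem EE_pow {d : ℕ} {B : ℝ} {n : ℕ} {c x : ℂ} (h : (c, x) ∈ EE d B (n + 1)) :
    (c, x ^ d) ∈ EE d B n := by
  obtain ⟨h1, h2, h3, h4⟩ := h
  simp only at h1 h2 h3 h4
  have e : ‖x ^ d‖ ^ (d ^ n) = ‖x‖ ^ (d ^ (n + 1)) := by
    rw [norm_pow, ← pow_mul, pow_succ, mul_comm]
  refine ⟨h1, pow_ne_zero _ h2, ?_, ?_⟩
  · simp only [e]; exact h3
  · intro i hi
    simp only [e]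
    exact h4 i (by omega)

theorem EE_mono {d : ℕ} (hd : 2 ≤ d) {B : ℝ} {n : ℕ} : EE d B n ⊆ EE d B (n + 1) := by
  rintro ⟨c, x⟩ h
  have hB := EE_B h
  have hK := KK_pos hB
  obtain ⟨h1, h2, h3, h4⟩ := h
  simp only at h1 h2 h3 h4
  set a : ℝ := ‖x‖ ^ (d ^ n) with ha
  have ha0 : 0 ≤ a := by positivity
  have ha1 : a ≤ 1 := by nlinarith
  have e : ‖x‖ ^ (d ^ (n + 1)) = a ^ d := by
    rw [ha, ← pow_mul, pow_succ]
  have h5 : a ^ d ≤ a ^ 2 := pow_le_pow_of_le_one ha0 ha1 hd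
  have h5' : a ^ 2 ≤ a := by nlinarith
  have h6 : a ^ d ≤ a := h5.trans h5'
  have hK0 : 0 < KK B := by linarith
  refine ⟨h1, h2, ?_, ?_⟩
  · simp only [e]
    exact lt_of_le_of_lt (mul_le_mul_of_nonneg_left h6 hK0.le) h3
  · intro i hi
    simp only [e]
    rcases Nat.lt_or_ge n i with hi' | hi'
    · have hin : i = n + 1 := by omega
      subst hin
      rw [P_succ]
      have h7 : ‖P d n c ^ d + c‖ ≤ ‖P d n c‖ ^ d + B := by
        refine (norm_add_le _ _).trans ?_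
        rw [norm_pow]
        linarith
      have h8 : KK B * a * ‖P d n c‖ < 1 := h4 n le_rfl
      have h9 : KK B * (a * ‖P d n c‖) ^ d ≤ KK B * (a * ‖P d n c‖) ^ 2 := by
        apply mul_le_mul_of_nonneg_left _ hK0.le
        apply pow_le_pow_of_le_one (by positivity) _ hd
        have : 0 ≤ a * ‖P d n c‖ := by positivity
        nlinarith
      have h10 : KK B * (a * ‖P d n c‖) ^ 2 ≤ 1 / KK B := by
        rw [le_div_iff₀ hK0]
        have h11 : 0 ≤ KK B * a * ‖P d n c‖ := by positivity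
        nlinarith
      have h12 : KK B * a ^ d * B ≤ B / KK B := by
        rw [le_div_iff₀ hK0]
        have h13 : KK B * a ^ d * B * KK B ≤ KK B * a ^ 2 * B * KK B := by gcongr
        have h14 : (KK B * a) ^ 2 ≤ 1 := by
          have : 0 ≤ KK B * a := by positivity
          nlinarith
        nlinarith
      have h15 : 1 / KK B + B / KK B < 1 := by
        rw [← add_div, div_lt_one hK0]
        unfold KK; linarith
      calc KK B * a ^ d * ‖P d n c ^ d + c‖ ≤ KK B * a ^ d * (‖P d n c‖ ^ d + B) := by gcongr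
        _ = KK B * (a * ‖P d n c‖) ^ d + KK B * a ^ d * B := by rw [mul_pow]; ring
        _ < 1 := by linarith
    · refine lt_of_le_of_lt ?_ (h4 i hi')
      gcongr

theorem EE_mono' {d : ℕ} (hd : 2 ≤ d) {B : ℝ} {n m : ℕ} (h : n ≤ m) : EE d B n ⊆ EE d B m := by
  induction m, h using Nat.le_induction with
  | base => exact subset_rfl
  | succ m _ ih => exact ih.trans (EE_mono hd)

theorem EE_exists {d : ℕ} (hd : 2 ≤ d) {B : ℝ} {c x : ℂ} (hc : ‖c‖ < B) (hx : x ≠ 0)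
    (hg : green d c 0 < -Real.log ‖x‖) : ∃ n, (c, x) ∈ EE d B n := by
  have hB : 0 < B := lt_of_le_of_lt (norm_nonneg _) hc
  have hK := KK_pos hB
  have hxp : 0 < ‖x‖ := norm_pos_iff.mpr hx
  have hg0 := green_nonneg hd c 0
  set θ : ℝ := ‖x‖ * Real.exp (green d c 0) with hθ
  have hθ0 : 0 < θ := by positivity
  have hθ1 : θ < 1 := by
    have : θ = Real.exp (Real.log ‖x‖ + green d c 0) := by
      rw [Real.exp_add, Real.exp_log hxp]
    rw [this, Real.exp_lt_one_iff]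
    linarith
  have hA : (1 : ℝ) ≤ B + 1 := by linarith
  have hcA : ‖c‖ ≤ B + 1 := by linarith
  obtain ⟨n, hn⟩ : ∃ n : ℕ, θ ^ (d ^ n) < 1 / (KK B * (2 * (B + 1))) := by
    have h1 : Tendsto (fun n : ℕ => θ ^ (d ^ n)) atTop (𝓝 0) :=
      (tendsto_pow_atTop_nhds_zero_of_lt_one hθ0.le hθ1).comp
        (tendsto_pow_atTop_atTop_of_one_lt (by omega))
    exact (h1.eventually_lt_const (by positivity)).exists
  rw [lt_div_iff₀ (by positivity)] at hn
  refine ⟨n, hc, hx, ?_, ?_⟩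
  · have h2 : ‖x‖ ^ (d ^ n) ≤ θ ^ (d ^ n) := by
      apply pow_le_pow_left₀ hxp.le
      rw [hθ]
      exact le_mul_of_one_le_right hxp.le (Real.one_le_exp hg0)
    have h3 : 0 ≤ θ ^ (d ^ n) := by positivity
    have h4 : KK B * θ ^ (d ^ n) ≤ θ ^ (d ^ n) * (KK B * (2 * (B + 1))) := by
      have : 0 ≤ θ ^ (d ^ n) * KK B := by positivity
      nlinarith
    calc KK B * ‖x‖ ^ (d ^ n) ≤ KK B * θ ^ (d ^ n) := by gcongr
      _ < 1 := by linarith
  · intro i hi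
    have h2 : ‖P d i c‖ ≤ 2 * (B + 1) * Real.exp ((d : ℝ) ^ n * green d c 0) := by
      refine (norm_iter_le hd hA hcA 0 i).trans ?_
      have h3 : (d : ℝ) ^ i ≤ (d : ℝ) ^ n :=
        pow_le_pow_right₀ (by exact_mod_cast (by omega : 1 ≤ d)) hi
      gcongr
    have h5 : θ ^ (d ^ n) = ‖x‖ ^ (d ^ n) * Real.exp ((d : ℝ) ^ n * green d c 0) := by
      rw [hθ, mul_pow, ← Real.exp_nat_mul]
      push_cast
      rfl
    calc KK B * ‖x‖ ^ (d ^ n) * ‖P d i c‖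
        ≤ KK B * ‖x‖ ^ (d ^ n) * (2 * (B + 1) * Real.exp ((d : ℝ) ^ n * green d c 0)) := by gcongr
      _ = θ ^ (d ^ n) * (KK B * (2 * (B + 1))) := by rw [h5]; ring
      _ < 1 := hn

end Pool.Agent.Y484.LC
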