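import Pool.Agent.Y484.LC.Ext
import Pool.Agent.H713R2.AR.GD

set_option autoImplicit false

/-! Inverse Boettcher coordinates of `z ^ d + c`: the extension. -/

open Complex Filter Topology Metric Set

namespace Pool.Agent.Y484.LC

open Pool.Agent.H712R2 Pool.Agent.H713R2 Pool.Agent.H713R2.AR

variable {d : ℕ} {B : ℝ} {ψ : ℂ × ℂ → ℂ} {G : ℕ → ℂ × ℂ → ℂ}

/-- the logarithm of the coordinate near infinity -/
noncomputable def eta (ψ : ℂ × ℂ → ℂ) (c u : ℂ) : ℂ := Complex.log (u * ψ (c, u⁻¹))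

/-- the coordinate in which the finite level map is used -/
noncomputable def yy (d : ℕ) (ψ : ℂ × ℂ → ℂ) (n : ℕ) (c x : ℂ) : ℂ :=
  x * Complex.exp (-(eta ψ c (x ^ (d ^ n)) / (d : ℂ) ^ n))

/-- the `n`-th extension -/
noncomputable def Fn (d : ℕ) (ψ : ℂ × ℂ → ℂ) (G : ℕ → ℂ × ℂ → ℂ) (n : ℕ) (c x : ℂ) : ℂ :=
  (yy d ψ n c x)⁻¹ * G n (c, yy d ψ n c x)

theorem inv_big {u : ℂ} (hB : 0 < B) (hu : u ≠ 0) (hu1 : KK B * ‖u‖ < 1) : KK B < ‖u⁻¹‖ := by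
  have h1 : 0 < ‖u‖ := norm_pos_iff.mpr hu
  rw [norm_inv, lt_inv_comm₀ (by linarith [KK_pos hB]) h1]
  rw [inv_eq_one_div, lt_div_iff₀ (by linarith [KK_pos hB])]
  linarith

theorem eta_near (hψ : NI d B ψ) {c u : ℂ} (hc : ‖c‖ < B) (hu : u ≠ 0) (hu1 : KK B * ‖u‖ < 1) :
    ‖u * ψ (c, u⁻¹) - 1‖ ≤ KK B / 16 * ‖u‖ := by
  have hB : 0 < B := lt_of_le_of_lt (norm_nonneg _) hc
  have h1 := hψ.near c (mem_ball_zero_iff.mpr hc) u⁻¹ (inv_big hB hu hu1)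
  have h2 : u * ψ (c, u⁻¹) - 1 = u * (ψ (c, u⁻¹) - u⁻¹) := by
    rw [mul_sub, mul_inv_cancel₀ hu]
  rw [h2, norm_mul, mul_comm]
  exact mul_le_mul_of_nonneg_right h1 (norm_nonneg _)

theorem eta_near' (hψ : NI d B ψ) {c u : ℂ} (hc : ‖c‖ < B) (hu : u ≠ 0) (hu1 : KK B * ‖u‖ < 1) :
    ‖u * ψ (c, u⁻¹) - 1‖ < 1 / 16 := by
  have := eta_near hψ hc hu hu1
  linarith

theorem slit_of_near {z : ℂ} (h : ‖z - 1‖ < 1 / 16) : z ∈ slitPlane := by
  have := mem_slitPlane_of_norm_lt_one (z := z - 1) (by linarith)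
  rwa [add_sub_cancel] at this

theorem exp_eta (hψ : NI d B ψ) {c u : ℂ} (hc : ‖c‖ < B) (hu : u ≠ 0) (hu1 : KK B * ‖u‖ < 1) :
    Complex.exp (eta ψ c u) = u * ψ (c, u⁻¹) := by
  unfold eta
  exact Complex.exp_log (slitPlane_ne_zero (slit_of_near (eta_near' hψ hc hu hu1)))

theorem eta_diff (hψ : NI d B ψ) {c u : ℂ} (hc : ‖c‖ < B) (hu : u ≠ 0) (hu1 : KK B * ‖u‖ < 1) :
    DifferentiableAt ℂ (fun p : ℂ × ℂ => eta ψ p.1 p.2) (c, u) := by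
  have hB : 0 < B := lt_of_le_of_lt (norm_nonneg _) hc
  have hopen : IsOpen (ball (0 : ℂ) B ×ˢ {w : ℂ | KK B < ‖w‖}) :=
    isOpen_ball.prod (isOpen_lt continuous_const continuous_norm)
  have h1 : DifferentiableAt ℂ ψ (c, u⁻¹) :=
    hψ.diff.differentiableAt (hopen.mem_nhds ⟨mem_ball_zero_iff.mpr hc, inv_big hB hu hu1⟩)
  have h2 : DifferentiableAt ℂ (fun p : ℂ × ℂ => (p.1, p.2⁻¹)) (c, u) :=
    DifferentiableAt.prodMk differentiableAt_fst (differentiableAt_snd.inv hu)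
  have h3 : DifferentiableAt ℂ (fun p : ℂ × ℂ => ψ (p.1, p.2⁻¹)) (c, u) :=
    DifferentiableAt.comp (c, u) (g := ψ) (f := fun p : ℂ × ℂ => (p.1, p.2⁻¹)) h1 h2
  unfold eta
  apply DifferentiableAt.clog
  · exact differentiableAt_snd.mul h3
  · exact slit_of_near (eta_near' hψ hc hu hu1)

theorem mem_pow {n : ℕ} {c x : ℂ} (h : (c, x) ∈ EE d B n) :
    ‖c‖ < B ∧ x ^ (d ^ n) ≠ 0 ∧ KK B * ‖x ^ (d ^ n)‖ < 1 := by
  refine ⟨h.1, pow_ne_zero _ h.2.1, ?_⟩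
  rw [norm_pow]
  exact h.2.2.1

theorem yy_diff (hψ : NI d B ψ) {n : ℕ} {c x : ℂ} (h : (c, x) ∈ EE d B n) :
    DifferentiableAt ℂ (fun p : ℂ × ℂ => yy d ψ n p.1 p.2) (c, x) := by
  obtain ⟨h1, h2, h3⟩ := mem_pow h
  have h4 := eta_diff hψ h1 h2 h3
  have h5 : DifferentiableAt ℂ (fun p : ℂ × ℂ => (p.1, p.2 ^ (d ^ n))) (c, x) :=
    DifferentiableAt.prodMk differentiableAt_fst (differentiableAt_snd.pow _)
  have h6 : DifferentiableAt ℂ (fun p : ℂ × ℂ => eta ψ p.1 (p.2 ^ (d ^ n))) (c, x) :=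
    DifferentiableAt.comp (c, x) (g := fun p : ℂ × ℂ => eta ψ p.1 p.2)
      (f := fun p : ℂ × ℂ => (p.1, p.2 ^ (d ^ n))) h4 h5
  unfold yy
  simp only [div_eq_mul_inv]
  exact differentiableAt_snd.mul ((h6.mul_const _).neg.cexp)

theorem yy_ne {n : ℕ} {c x : ℂ} (hx : x ≠ 0) : yy d ψ n c x ≠ 0 :=
  mul_ne_zero hx (Complex.exp_ne_zero _)

theorem yy_pow (hd : 2 ≤ d) (hψ : NI d B ψ) {n : ℕ} {c x : ℂ} (h : (c, x) ∈ EE d B n) :
    (yy d ψ n c x) ^ (d ^ n) = (ψ (c, (x ^ (d ^ n))⁻¹))⁻¹ := by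
  obtain ⟨h1, h2, h3⟩ := mem_pow h
  have hdC : (d : ℂ) ≠ 0 := by exact_mod_cast (by omega : d ≠ 0)
  unfold yy
  rw [mul_pow, ← Complex.exp_nat_mul]
  have h4 : ((d ^ n : ℕ) : ℂ) * -(eta ψ c (x ^ (d ^ n)) / (d : ℂ) ^ n) =
      -(eta ψ c (x ^ (d ^ n))) := by
    push_cast
    field_simp
  rw [h4, Complex.exp_neg, exp_eta hψ h1 h2 h3, mul_inv, mul_inv_cancel_left₀ h2]

theorem psi_lower (hψ : NI d B ψ) {c u : ℂ} (hc : ‖c‖ < B) (hu : u ≠ 0) (hu1 : KK B * ‖u‖ < 1) :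
    ‖(ψ (c, u⁻¹))⁻¹‖ ≤ 2 * ‖u‖ := by
  have h1 := eta_near' hψ hc hu hu1
  have h2 : 1 / 2 ≤ ‖u * ψ (c, u⁻¹)‖ := by
    have := norm_sub_norm_le (1 : ℂ) (u * ψ (c, u⁻¹))
    rw [norm_one, norm_sub_rev] at this
    linarith
  rw [norm_mul] at h2
  have h4 : ψ (c, u⁻¹) ≠ 0 := by
    intro h0
    rw [h0, norm_zero, mul_zero] at h2
    linarith
  have h5 : 0 < ‖ψ (c, u⁻¹)‖ := norm_pos_iff.mpr h4
  rw [norm_inv, inv_eq_one_div, div_le_iff₀ h5]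
  linarith

theorem mem_AA (hd : 2 ≤ d) (hψ : NI d B ψ) {n : ℕ} {c x : ℂ} (h : (c, x) ∈ EE d B n) :
    (c, yy d ψ n c x) ∈ AA d n := by
  obtain ⟨h1, h2, h3⟩ := mem_pow h
  have hB : 0 < B := EE_B h
  have hK := KK_pos hB
  intro i _ hi
  simp only
  have h4 : ‖yy d ψ n c x‖ ^ (d ^ n) ≤ KK B * ‖x‖ ^ (d ^ n) := by
    rw [← norm_pow, yy_pow hd hψ h]
    refine (psi_lower hψ h1 h2 h3).trans ?_
    rw [norm_pow]
    have : 0 ≤ ‖x‖ ^ (d ^ n) := by positivity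
    nlinarith
  exact lt_of_le_of_lt (mul_le_mul_of_nonneg_right h4 (norm_nonneg _)) (h.2.2.2 i hi)

theorem yy_succ (hd : 2 ≤ d) (n : ℕ) (c x : ℂ) :
    (yy d ψ (n + 1) c x) ^ d = yy d ψ n c (x ^ d) := by
  have hdC : (d : ℂ) ≠ 0 := by exact_mod_cast (by omega : d ≠ 0)
  unfold yy
  rw [mul_pow, ← Complex.exp_nat_mul, ← pow_mul, show d * d ^ n = d ^ (n + 1) by ring]
  congr 2
  field_simp
  rw [pow_succ]
  ring

theorem Fn_step (hd : 2 ≤ d) (hψ : NI d B ψ) (hG : IsSeq d G) {n : ℕ} {c x : ℂ}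
    (h : (c, x) ∈ EE d B (n + 1)) :
    fc d c (Fn d ψ G (n + 1) c x) = Fn d ψ G n c (x ^ d) := by
  have h1 := hG.relation n c _ (mem_AA hd hψ h)
  have h2 : yy d ψ (n + 1) c x ≠ 0 := yy_ne h.2.1
  unfold fc Fn
  rw [mul_pow, h1, yy_succ hd, inv_pow, yy_succ hd]
  have h3 : yy d ψ n c (x ^ d) ≠ 0 := yy_ne (pow_ne_zero _ h.2.1)
  field_simp
  ring

theorem Fn_zero (hψ : NI d B ψ) (hG : IsSeq d G) {c x : ℂ} (h : (c, x) ∈ EE d B 0) :
    Fn d ψ G 0 c x = ψ (c, x⁻¹) := by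
  obtain ⟨h1, h2, h3⟩ := mem_pow h
  simp only [pow_zero, pow_one] at h2 h3
  unfold Fn yy
  rw [hG.base]
  simp only [pow_zero, pow_one, div_one, mul_one]
  rw [Complex.exp_neg, exp_eta hψ h1 h2 h3, mul_inv, inv_inv, inv_mul_cancel_left₀ h2]

theorem Fn_cont (hd : 2 ≤ d) (hψ : NI d B ψ) (hG : IsSeq d G) {n : ℕ} {c x : ℂ}
    (h : (c, x) ∈ EE d B n) : ContinuousAt (fun p : ℂ × ℂ => Fn d ψ G n p.1 p.2) (c, x) := by
  have h1 := (yy_diff hψ h).continuousAt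
  have h2 : ContinuousAt (G n) (c, yy d ψ n c x) :=
    (hG.isG n).cont.continuousAt ((isOpen_AA d n).mem_nhds (mem_AA hd hψ h))
  have h3 : ContinuousAt (fun p : ℂ × ℂ => (p.1, yy d ψ n p.1 p.2)) (c, x) :=
    ContinuousAt.prodMk continuousAt_fst h1
  have h4 : ContinuousAt (fun p : ℂ × ℂ => G n (p.1, yy d ψ n p.1 p.2)) (c, x) :=
    ContinuousAt.comp (g := G n) (f := fun p : ℂ × ℂ => (p.1, yy d ψ n p.1 p.2)) h2 h3
  unfold Fn
  exact (h1.inv₀ (yy_ne h.2.1)).mul h4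

theorem Fn_diff (hd : 2 ≤ d) (hψ : NI d B ψ) (hG : IsSeq d G) {n : ℕ} {c x : ℂ}
    (h : (c, x) ∈ EE d B n) : DifferentiableAt ℂ (Fn d ψ G n c) x := by
  have h0 : DifferentiableAt ℂ (fun y : ℂ => (c, y)) x :=
    DifferentiableAt.prodMk (differentiableAt_const c) differentiableAt_id
  have h1 : DifferentiableAt ℂ (fun y : ℂ => yy d ψ n c y) x :=
    DifferentiableAt.comp x (g := fun p : ℂ × ℂ => yy d ψ n p.1 p.2) (f := fun y : ℂ => (c, y))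
      (yy_diff hψ h) h0
  have h2 := seq_diff hd hG n c _ (mem_AA hd hψ h)
  have h3 : DifferentiableAt ℂ (fun y : ℂ => G n (c, yy d ψ n c y)) x :=
    DifferentiableAt.comp x (g := fun y => G n (c, y)) (f := fun y : ℂ => yy d ψ n c y) h2 h1
  unfold Fn
  exact (h1.inv (yy_ne h.2.1)).mul h3

theorem Fn_ne (hd : 2 ≤ d) (hψ : NI d B ψ) (hG : IsSeq d G) {n : ℕ} {c x : ℂ}
    (h : (c, x) ∈ EE d B n) : Fn d ψ G n c x ≠ 0 :=
  mul_ne_zero (inv_ne_zero (yy_ne h.2.1)) ((hG.isG n).ne _ (mem_AA hd hψ h))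

theorem small_ev (B : ℝ) : ∀ᶠ u : ℂ in 𝓝[≠] 0, u ≠ 0 ∧ KK B * ‖u‖ < 1 := by
  have h1 : ∀ᶠ u : ℂ in 𝓝 0, KK B * ‖u‖ < 1 := by
    have h2 : Continuous fun u : ℂ => KK B * ‖u‖ := by fun_prop
    have h3 := h2.tendsto 0
    simp only [norm_zero, mul_zero] at h3
    exact h3.eventually_lt_const one_pos
  filter_upwards [h1.filter_mono nhdsWithin_le_nhds, self_mem_nhdsWithin] with u h2 h3
  exact ⟨h3, h2⟩

theorem psi_lim (hψ : NI d B ψ) {c : ℂ} (hc : ‖c‖ < B) :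
    Tendsto (fun u : ℂ => u * ψ (c, u⁻¹)) (𝓝[≠] 0) (𝓝 1) := by
  have hB : 0 < B := lt_of_le_of_lt (norm_nonneg _) hc
  rw [tendsto_iff_norm_sub_tendsto_zero]
  have h1 : Tendsto (fun u : ℂ => KK B / 16 * ‖u‖) (𝓝[≠] 0) (𝓝 0) := by
    have h2 : Continuous fun u : ℂ => KK B / 16 * ‖u‖ := by fun_prop
    have h3 := h2.tendsto 0
    simp only [norm_zero, mul_zero] at h3
    exact h3.mono_left nhdsWithin_le_nhds
  refine squeeze_zero' (Eventually.of_forall fun u => norm_nonneg _) ?_ h1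
  filter_upwards [small_ev B] with u hu
  exact eta_near hψ hc hu.1 hu.2

theorem eta_lim (hψ : NI d B ψ) {c : ℂ} (hc : ‖c‖ < B) :
    Tendsto (fun u : ℂ => eta ψ c u) (𝓝[≠] 0) (𝓝 0) := by
  have h1 := psi_lim hψ hc
  have h2 : ContinuousAt Complex.log 1 := continuousAt_clog (by simp)
  have h3 := h2.tendsto.comp h1
  rw [Complex.log_one] at h3
  exact h3

theorem pow_lim {m : ℕ} (hm : m ≠ 0) : Tendsto (fun x : ℂ => x ^ m) (𝓝[≠] 0) (𝓝[≠] 0) := by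
  rw [tendsto_nhdsWithin_iff]
  constructor
  · have h1 : Continuous fun x : ℂ => x ^ m := by fun_prop
    have h2 := h1.tendsto 0
    simp only [zero_pow hm] at h2
    exact h2.mono_left nhdsWithin_le_nhds
  · filter_upwards [self_mem_nhdsWithin] with x hx
    exact pow_ne_zero _ hx

theorem Fn_lim (hd : 2 ≤ d) (hψ : NI d B ψ) (hG : IsSeq d G) {n : ℕ} {c : ℂ} (hc : ‖c‖ < B) :
    Tendsto (fun x : ℂ => x * Fn d ψ G n c x) (𝓝[≠] 0) (𝓝 1) := by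
  have h1 : Tendsto (fun x : ℂ => eta ψ c (x ^ (d ^ n)) / (d : ℂ) ^ n) (𝓝[≠] 0) (𝓝 0) := by
    have := ((eta_lim hψ hc).comp (pow_lim (m := d ^ n) (pow_ne_zero _ (by omega)))).div_const
      ((d : ℂ) ^ n)
    rw [zero_div] at this
    exact this
  have h2 : Tendsto (fun x : ℂ => Complex.exp (eta ψ c (x ^ (d ^ n)) / (d : ℂ) ^ n)) (𝓝[≠] 0)
      (𝓝 1) := by
    have := (Complex.continuous_exp.tendsto 0).comp h1
    rw [Complex.exp_zero] at this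
    exact this
  have h3 : Tendsto (fun x : ℂ => Complex.exp (-(eta ψ c (x ^ (d ^ n)) / (d : ℂ) ^ n))) (𝓝[≠] 0)
      (𝓝 1) := by
    have := (Complex.continuous_exp.tendsto (-0)).comp h1.neg
    rw [neg_zero, Complex.exp_zero] at this
    exact this
  have hid : Tendsto (fun x : ℂ => x) (𝓝[≠] 0) (𝓝 0) := tendsto_id.mono_left nhdsWithin_le_nhds
  have h4 : Tendsto (fun x : ℂ => yy d ψ n c x) (𝓝[≠] 0) (𝓝 0) := by
    have := hid.mul h3
    rw [zero_mul] at this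
    exact this
  have h5 : ContinuousAt (G n) (c, 0) :=
    (hG.isG n).cont.continuousAt ((isOpen_AA d n).mem_nhds (mem_AA_zero hd n c))
  have h6 : Tendsto (fun x : ℂ => G n (c, yy d ψ n c x)) (𝓝[≠] 0) (𝓝 1) := by
    have h7 : Tendsto (fun x : ℂ => (c, yy d ψ n c x)) (𝓝[≠] 0) (𝓝 (c, 0)) :=
      tendsto_const_nhds.prodMk_nhds h4
    have := h5.tendsto.comp h7
    rw [(hG.isG n).zero] at this
    exact this
  have h8 := h2.mul h6
  rw [one_mul] at h8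
  refine h8.congr' ?_
  filter_upwards [self_mem_nhdsWithin] with x hx
  have hx' : x ≠ 0 := hx
  unfold Fn
  rw [← mul_assoc]
  congr 1
  unfold yy
  rw [Complex.exp_neg]
  have := Complex.exp_ne_zero (eta ψ c (x ^ (d ^ n)) / (d : ℂ) ^ n)
  field_simp

/-- the extensions agree -/
theorem Fn_agree (hd : 2 ≤ d) (hψ : NI d B ψ) (hG : IsSeq d G) (n : ℕ) :
    ∀ c x : ℂ, (c, x) ∈ EE d B n → Fn d ψ G (n + 1) c x = Fn d ψ G n c x := by
  have main : ∀ n : ℕ, (∀ c x : ℂ, (c, x) ∈ EE d B n →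
      (Fn d ψ G (n + 1) c x) ^ d = (Fn d ψ G n c x) ^ d) →
      ∀ c x : ℂ, (c, x) ∈ EE d B n → Fn d ψ G (n + 1) c x = Fn d ψ G n c x := by
    intro n hn c x h
    have hi : ContinuousAt (fun y : ℂ => (c, y)) x := by fun_prop
    apply ratio_disc (d := d) (by omega) h.2.1
    · intro s hs
      have h1 := Fn_cont hd hψ hG (EE_mono hd (EE_star h hs))
      exact ContinuousAt.comp (g := fun p : ℂ × ℂ => Fn d ψ G (n + 1) p.1 p.2)
        (f := fun y : ℂ => (c, y)) h1 (by fun_prop)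
    · intro s hs
      have h1 := Fn_cont hd hψ hG (EE_star h hs)
      exact ContinuousAt.comp (g := fun p : ℂ × ℂ => Fn d ψ G n p.1 p.2)
        (f := fun y : ℂ => (c, y)) h1 (by fun_prop)
    · intro s hs
      exact Fn_ne hd hψ hG (EE_star h hs)
    · intro s hs
      exact hn c _ (EE_star h hs)
    · exact Fn_lim hd hψ hG h.1
    · exact Fn_lim hd hψ hG h.1
  induction n with
  | zero =>
    apply main 0
    intro c x h
    have h1 := Fn_step hd hψ hG (EE_mono hd h)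
    have h2 := Fn_zero hψ hG h
    have h3 := Fn_zero hψ hG (EE_pow (EE_mono hd h))
    obtain ⟨h4, h5, h6⟩ := mem_pow h
    simp only [pow_zero, pow_one] at h5 h6
    have h7 := hψ.conj c (mem_ball_zero_iff.mpr h4) x⁻¹ (inv_big (EE_B h) h5 h6)
    rw [h3, ← inv_pow, ← h7, ← h2] at h1
    exact add_right_cancel h1
  | succ n ih =>
    apply main (n + 1)
    intro c x h
    have h1 := Fn_step hd hψ hG (EE_mono hd h)
    have h2 := Fn_step hd hψ hG h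
    rw [ih c _ (EE_pow h), ← h2] at h1
    exact add_right_cancel h1

theorem Fn_agree' (hd : 2 ≤ d) (hψ : NI d B ψ) (hG : IsSeq d G) {n m : ℕ} (hnm : n ≤ m) {c x : ℂ}
    (h : (c, x) ∈ EE d B n) : Fn d ψ G m c x = Fn d ψ G n c x := by
  induction m, hnm using Nat.le_induction with
  | base => rfl
  | succ m hm ih =>
    rw [Fn_agree hd hψ hG m c x (EE_mono' hd hm h), ih]

end Pool.Agent.Y484.LC
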