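import Pool.Agent.H713R3.ZA.TBSUM
import Pool.Agent.H713R3.ZA.TINV
import Pool.Agent.H712R2.MultiBott

set_option autoImplicit false

/-! Inverse Boettcher coordinates of `z ^ d + c` near infinity, with explicit constants. -/

open Complex Filter Topology Metric Set

namespace Pool.Agent.Y484.LC

open Pool.Agent.H712R2 Pool.Agent.H713R3.ZA

/-- the radius -/
noncomputable def KK (B : ℝ) : ℝ := 100 * (B + 1)

structure NI (d : ℕ) (B : ℝ) (ψ : ℂ × ℂ → ℂ) : Prop where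
  diff : DifferentiableOn ℂ ψ (ball 0 B ×ˢ {w : ℂ | KK B < ‖w‖})
  near : ∀ c ∈ ball (0 : ℂ) B, ∀ w : ℂ, KK B < ‖w‖ → ‖ψ (c, w) - w‖ ≤ KK B / 16
  conj : ∀ c ∈ ball (0 : ℂ) B, ∀ w : ℂ, KK B < ‖w‖ → fc d c (ψ (c, w)) = ψ (c, w ^ d)
  inj : ∀ c ∈ ball (0 : ℂ) B, ∀ w w' : ℂ, KK B < ‖w‖ → KK B < ‖w'‖ → ψ (c, w) = ψ (c, w') → w = w'
  surj : ∀ c ∈ ball (0 : ℂ) B, ∀ z : ℂ, 2 * KK B < ‖z‖ → ∃ w : ℂ, KK B < ‖w‖ ∧ ψ (c, w) = z

theorem exists_ni {d : ℕ} (hd : 2 ≤ d) {B : ℝ} (hB : 0 < B) : ∃ ψ, NI d B ψ := by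
  set R : ℝ := 2 * B + 3 with hR
  set C₁ : ℝ := 4 * B + 1 with hC₁
  set R₁ : ℝ := R + 10 * C₁ with hR₁
  have hKK : KK B = 100 * (B + 1) := rfl
  have hgrow : ∀ c ∈ ball (0 : ℂ) B, ∀ z : ℂ, R < ‖z‖ → 2 * ‖z‖ ≤ ‖z ^ d + c‖ := by
    intro c hc z hz
    have hc' : ‖c‖ < B := mem_ball_zero_iff.mp hc
    have h1 : ‖z‖ ^ d - ‖c‖ ≤ ‖z ^ d + c‖ := by
      have := norm_sub_le (z ^ d + c) c
      rw [add_sub_cancel_right, norm_pow] at this
      linarith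
    have h2 : ‖z‖ ^ 2 ≤ ‖z‖ ^ d := pow_le_pow_right₀ (by linarith) hd
    nlinarith [norm_nonneg c]
  have hfd : DifferentiableOn ℂ (fun p : ℂ × ℂ => (fun (c z : ℂ) => z ^ d + c) p.1 p.2)
      (ball 0 B ×ˢ {z : ℂ | R < ‖z‖}) := by
    apply Differentiable.differentiableOn
    fun_prop
  obtain ⟨u, hud, hu⟩ := bsum_holds ℂ (ball 0 B) d 1 R B (fun c z => z ^ d + c) isOpen_ball hd
    one_ne_zero (by linarith) hB.le (by linarith) hfd (by
      intro c hc z hz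
      refine ⟨hgrow c hc z hz, ?_⟩
      have hc' : ‖c‖ < B := mem_ball_zero_iff.mp hc
      have hz0 : z ≠ 0 := by
        intro h; rw [h, norm_zero] at hz; linarith
      have hzd : z ^ d ≠ 0 := pow_ne_zero _ hz0
      have h1 : (z ^ d + c) / (1 * z ^ d) - 1 = c / z ^ d := by field_simp; ring
      rw [h1, norm_div, norm_pow]
      have h2 : ‖z‖ ≤ ‖z‖ ^ d := le_self_pow₀ (by linarith) (by omega)
      have h3 : 0 < ‖z‖ := by linarith
      exact div_le_div₀ hB.le hc'.le h3 h2)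
  -- the Böttcher map
  set g : ℂ × ℂ → ℂ := fun p => p.2 * (Complex.exp (u p) - 1) with hg
  have hC₁0 : 0 < C₁ := by linarith
  have hgd : DifferentiableOn ℂ g (ball 0 B ×ˢ {z : ℂ | R < ‖z‖}) := by
    have h1 : DifferentiableOn ℂ (fun p : ℂ × ℂ => p.2) (ball 0 B ×ˢ {z : ℂ | R < ‖z‖}) :=
      differentiable_snd.differentiableOn
    exact h1.mul ((hud.cexp).sub_const 1)
  have hgb : ∀ x ∈ ball (0 : ℂ) B, ∀ z : ℂ, R < ‖z‖ → ‖g (x, z)‖ ≤ C₁ := by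
    intro x hx z hz
    have hzpos : 0 < ‖z‖ := by linarith
    have h1 := (hu x hx z hz).1
    have h2 : ‖u (x, z)‖ ≤ 1 := by
      refine h1.trans ?_
      rw [div_le_one hzpos]; linarith
    have h3 : ‖Complex.exp (u (x, z)) - 1‖ ≤ 2 * ‖u (x, z)‖ := Complex.norm_exp_sub_one_le h2
    calc ‖g (x, z)‖ = ‖z‖ * ‖Complex.exp (u (x, z)) - 1‖ := by simp only [hg, norm_mul]
      _ ≤ ‖z‖ * (2 * (2 * B / ‖z‖)) := by
          apply mul_le_mul_of_nonneg_left _ hzpos.le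
          linarith
      _ = 4 * B := by field_simp; ring
      _ ≤ C₁ := by linarith
  obtain ⟨ψ, hψd, hψ⟩ := inv_holds ℂ (ball 0 B) R C₁ g isOpen_ball (by linarith) hC₁0 hgd hgb R₁
    le_rfl
  set φ : ℂ × ℂ → ℂ := fun p => p.2 + g p with hφ
  have hφu : ∀ p : ℂ × ℂ, φ p = p.2 * Complex.exp (u p) := by
    intro p; simp only [hφ, hg]; ring
  have hpw : ∀ w : ℂ, R₁ < ‖w‖ → 2 * ‖w‖ ≤ ‖w ^ d‖ := by
    intro w hw
    rw [norm_pow]
    have h2 : ‖w‖ ^ 2 ≤ ‖w‖ ^ d := pow_le_pow_right₀ (by linarith) hd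
    nlinarith
  have hle : R₁ ≤ KK B := by rw [hKK]; linarith
  refine ⟨ψ, ?_, ?_, ?_, ?_, ?_⟩
  · apply hψd.mono
    apply prod_mono subset_rfl
    intro z hz
    have hz' : KK B < ‖z‖ := hz
    exact lt_of_le_of_lt hle hz'
  · intro c hc w hw
    refine ((hψ c hc).1 w (by linarith)).1.trans ?_
    rw [hKK]; linarith
  · intro x hx w hw'
    have hw : R₁ < ‖w‖ := by linarith
    obtain ⟨h1, h2⟩ := (hψ x hx).1 w hw
    set z := ψ (x, w) with hz
    have hzn : R₁ - C₁ < ‖z‖ := by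
      have := norm_sub_norm_le w z
      rw [norm_sub_rev] at this
      linarith
    have hzR : R < ‖z‖ := by linarith
    have h3 : φ (x, z) = w := h2
    have h4 := (hu x hx z hzR).2
    have h5 : φ (x, z ^ d + x) = w ^ d := by
      rw [hφu, ← h3, hφu, ← one_mul ((z * Complex.exp (u (x, z))) ^ d)]
      exact h4
    have h6 := hgrow x hx z (by linarith)
    have h7 := (hψ x hx).2 (z ^ d + x) (by linarith) (by
      change R₁ < ‖φ (x, z ^ d + x)‖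
      rw [h5]
      have := hpw w hw
      linarith)
    change ψ (x, φ (x, z ^ d + x)) = z ^ d + x at h7
    rw [h5] at h7
    exact h7.symm
  · intro c hc w w' hw hw' h
    have h1 := ((hψ c hc).1 w (by linarith)).2
    have h2 := ((hψ c hc).1 w' (by linarith)).2
    rw [← h1, ← h2, h]
  · intro c hc z hz
    have hzR : R < ‖z‖ := by rw [hKK] at hz; linarith
    have h1 := hgb c hc z hzR
    have h2 : ‖z‖ - ‖g (c, z)‖ ≤ ‖z + g (c, z)‖ := by
      have := norm_sub_norm_le z (-g (c, z))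
      rwa [norm_neg, sub_neg_eq_add] at this
    have h3 : KK B < ‖z + g (c, z)‖ := by rw [hKK] at hz ⊢; linarith
    exact ⟨z + g (c, z), h3, (hψ c hc).2 z (by rw [hKK] at hz; linarith) (by linarith)⟩

end Pool.Agent.Y484.LC
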