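import Pool.Agent.Y484.LC.Fn

set_option autoImplicit false

/-! Inverse Boettcher coordinates of `z ^ d + c` on the whole domain, for all the parameters. -/

open Complex Filter Topology Metric Set

namespace Pool.Agent.Y484.LC

open Pool.Agent.H712R2 Pool.Agent.H713R2 Pool.Agent.H713R2.AR

/-- the radius of the domain -/
noncomputable def rho (d : ℕ) (c : ℂ) : ℝ := Real.exp (-green d c 0)

theorem rho_pos (d : ℕ) (c : ℂ) : 0 < rho d c := Real.exp_pos _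

theorem rho_le {d : ℕ} (hd : 2 ≤ d) (c : ℂ) : rho d c ≤ 1 := by
  unfold rho
  rw [Real.exp_le_one_iff]
  linarith [green_nonneg hd c 0]

theorem lt_rho_iff {d : ℕ} {c x : ℂ} (hx : x ≠ 0) :
    ‖x‖ < rho d c ↔ green d c 0 < -Real.log ‖x‖ := by
  unfold rho
  rw [← Real.log_lt_iff_lt_exp (norm_pos_iff.mpr hx)]
  constructor <;> intro h <;> linarith

theorem pow_lt_rho {d : ℕ} (hd : 2 ≤ d) {c x : ℂ} (h : ‖x‖ < rho d c) {m : ℕ} (hm : m ≠ 0) :
    ‖x ^ m‖ < rho d c := by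
  rw [norm_pow]
  have h1 : ‖x‖ ≤ 1 := h.le.trans (rho_le hd c)
  exact lt_of_le_of_lt (pow_le_of_le_one (norm_nonneg _) h1 hm) h

/-- the properties of the inverse Boettcher coordinate of one map -/
structure IsP (d : ℕ) (c : ℂ) (F : ℂ → ℂ) : Prop where
  cont : ∀ x : ℂ, x ≠ 0 → ‖x‖ < rho d c → ContinuousAt F x
  ne : ∀ x : ℂ, x ≠ 0 → ‖x‖ < rho d c → F x ≠ 0
  conj : ∀ x : ℂ, x ≠ 0 → ‖x‖ < rho d c → fc d c (F x) = F (x ^ d)
  lim : Tendsto (fun x : ℂ => x * F x) (𝓝[≠] 0) (𝓝 1)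

theorem IsP.unique {d : ℕ} (hd : 2 ≤ d) {c : ℂ} {F F' : ℂ → ℂ} (hF : IsP d c F) (hF' : IsP d c F')
    {x : ℂ} (hx : x ≠ 0) (hxr : ‖x‖ < rho d c) : F x = F' x := by
  have hd0 : d ≠ 0 := by omega
  -- near the origin
  obtain ⟨r, hr0, hr⟩ : ∃ r : ℝ, 0 < r ∧ ∀ x : ℂ, x ≠ 0 → ‖x‖ < r → ‖x‖ < rho d c →
      F x = F' x := by
    set S : ℂ → ℂ := fun x => ∑ i ∈ Finset.range d, (x * F x) ^ i * (x * F' x) ^ (d - 1 - i) with hS
    set D : ℂ → ℂ := fun x => x * F x - x * F' x with hD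
    have h1 : Tendsto S (𝓝[≠] 0) (𝓝 (d : ℂ)) := by
      have h2 : Tendsto S (𝓝[≠] 0)
          (𝓝 (∑ i ∈ Finset.range d, (1 : ℂ) ^ i * (1 : ℂ) ^ (d - 1 - i))) := by
        apply tendsto_finsetSum
        intro i _
        exact (hF.lim.pow i).mul (hF'.lim.pow (d - 1 - i))
      simpa using h2
    have h3 : Tendsto D (𝓝[≠] 0) (𝓝 0) := by
      have := hF.lim.sub hF'.lim
      rw [sub_self] at this
      exact this
    have h4 : ∀ᶠ x in 𝓝[≠] (0 : ℂ), 3 / 2 < ‖S x‖ := by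
      apply h1.norm.eventually_const_lt
      have : (2 : ℝ) ≤ d := by exact_mod_cast hd
      rw [Complex.norm_natCast]
      linarith
    have h5 : ∀ᶠ x in 𝓝[≠] (0 : ℂ), ‖D x‖ < 1 := by
      have := h3.norm
      rw [norm_zero] at this
      exact this.eventually_lt_const one_pos
    have h6 := h4.and h5
    rw [eventually_nhdsWithin_iff, Metric.eventually_nhds_iff] at h6
    obtain ⟨r, hr0, hr⟩ := h6
    refine ⟨min r 1, lt_min hr0 one_pos, ?_⟩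
    intro x hx hxr hxrho
    have hx1 : ‖x‖ < 1 := lt_of_lt_of_le hxr (min_le_right _ _)
    have hxr' : ‖x‖ < r := lt_of_lt_of_le hxr (min_le_left _ _)
    have hsm : ∀ n : ℕ, ‖x ^ (d ^ n)‖ < r := by
      intro n
      rw [norm_pow]
      exact lt_of_le_of_lt (pow_le_of_le_one (norm_nonneg _) hx1.le (pow_ne_zero _ hd0)) hxr'
    have hgood : ∀ n : ℕ, 3 / 2 < ‖S (x ^ (d ^ n))‖ ∧ ‖D (x ^ (d ^ n))‖ < 1 := by
      intro n
      exact hr (by rw [dist_zero_right]; exact hsm n) (pow_ne_zero _ hx)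
    have hstep : ∀ n : ℕ, D (x ^ (d ^ (n + 1))) = S (x ^ (d ^ n)) * D (x ^ (d ^ n)) := by
      intro n
      set y := x ^ (d ^ n) with hy
      have hy0 : y ≠ 0 := pow_ne_zero _ hx
      have hyr : ‖y‖ < rho d c := pow_lt_rho hd hxrho (pow_ne_zero _ hd0)
      have e1 : x ^ (d ^ (n + 1)) = y ^ d := by rw [hy, ← pow_mul, pow_succ]
      have e2 := hF.conj y hy0 hyr
      have e3 := hF'.conj y hy0 hyr
      have e4 : S y * (y * F y - y * F' y) = (y * F y) ^ d - (y * F' y) ^ d := by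
        simp only [hS]
        exact geom_sum₂_mul _ _ _
      rw [e1]
      simp only [hD]
      rw [e4, ← e2, ← e3, mul_pow, mul_pow]
      unfold fc
      ring
    have hgrow : ∀ n : ℕ, (3 / 2 : ℝ) ^ n * ‖D x‖ ≤ ‖D (x ^ (d ^ n))‖ := by
      intro n
      induction n with
      | zero => simp
      | succ n ih =>
        rw [hstep, norm_mul, pow_succ]
        have := (hgood n).1
        have h7 : 0 ≤ ‖D (x ^ (d ^ n))‖ := norm_nonneg _
        have h8 : 0 ≤ (3 / 2 : ℝ) ^ n * ‖D x‖ := by positivity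
        nlinarith
    have hD0 : D x = 0 := by
      by_contra hne
      have hpos : 0 < ‖D x‖ := norm_pos_iff.mpr hne
      obtain ⟨n, hn⟩ := pow_unbounded_of_one_lt (1 / ‖D x‖) (by norm_num : (1 : ℝ) < 3 / 2)
      rw [div_lt_iff₀ hpos] at hn
      linarith [hgrow n, (hgood n).2]
    have h9 : x * F x = x * F' x := sub_eq_zero.mp hD0
    exact mul_left_cancel₀ hx h9
  -- propagation
  have key : ∀ n : ℕ, ∀ x : ℂ, x ≠ 0 → ‖x‖ < rho d c → ‖x‖ ^ (d ^ n) < r → F x = F' x := by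
    intro n
    induction n with
    | zero =>
      intro x hx hxr h
      rw [pow_zero, pow_one] at h
      exact hr x hx h hxr
    | succ n ih =>
      intro x hx hxr h
      have hs' : ∀ s ∈ Ioc (0 : ℝ) 1, (s : ℂ) * x ≠ 0 ∧ ‖(s : ℂ) * x‖ < rho d c := by
        intro s hs
        exact ⟨mul_ne_zero (by exact_mod_cast hs.1.ne') hx, lt_of_le_of_lt (norm_smul_le' hs) hxr⟩
      apply ratio_disc (d := d) (by omega) hx
      · intro s hs; exact hF.cont _ (hs' s hs).1 (hs' s hs).2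
      · intro s hs; exact hF'.cont _ (hs' s hs).1 (hs' s hs).2
      · intro s hs; exact hF'.ne _ (hs' s hs).1 (hs' s hs).2
      · intro s hs
        obtain ⟨h1, h2⟩ := hs' s hs
        have h3 := ih (((s : ℂ) * x) ^ d) (pow_ne_zero _ h1) (pow_lt_rho hd h2 hd0) (by
          rw [norm_pow, ← pow_mul, show d * d ^ n = d ^ (n + 1) by ring]
          exact lt_of_le_of_lt (pow_le_pow_left₀ (norm_nonneg _) (norm_smul_le' hs) _) h)
        rw [← hF.conj _ h1 h2, ← hF'.conj _ h1 h2] at h3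
        exact add_right_cancel h3
      · exact hF.lim
      · exact hF'.lim
  have hx1 : ‖x‖ < 1 := lt_of_lt_of_le hxr (rho_le hd c)
  obtain ⟨n, hn⟩ : ∃ n : ℕ, ‖x‖ ^ (d ^ n) < r := by
    have h1 : Tendsto (fun n : ℕ => ‖x‖ ^ (d ^ n)) atTop (𝓝 0) :=
      (tendsto_pow_atTop_nhds_zero_of_lt_one (norm_nonneg _) hx1).comp
        (tendsto_pow_atTop_atTop_of_one_lt (by omega))
    exact (h1.eventually_lt_const hr0).exists
  exact key n x hx hxr hn

theorem EE_rho {d : ℕ} (hd : 2 ≤ d) {B : ℝ} {n : ℕ} {c x : ℂ} (h : (c, x) ∈ EE d B n) :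
    ‖x‖ < rho d c := by
  have hB := EE_B h
  have hK := KK_pos hB
  obtain ⟨h1, h2, h3, h4⟩ := h
  simp only at h1 h2 h3 h4
  rw [lt_rho_iff h2]
  have hxp : 0 < ‖x‖ := norm_pos_iff.mpr h2
  have hdn : (0 : ℝ) < (d : ℝ) ^ n := by
    have : (0 : ℝ) < d := by exact_mod_cast (by omega : 0 < d)
    positivity
  have hA : (1 : ℝ) ≤ B + 1 := by linarith
  have h5 := (abs_le.mp (green_near hd hA (by linarith : ‖c‖ ≤ B + 1) 0 n)).2
  have h6 : KK B * ‖x‖ ^ (d ^ n) * max 1 ‖P d n c‖ < 1 := by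
    rcases le_total 1 ‖P d n c‖ with h | h
    · rw [max_eq_right h]; exact h4 n le_rfl
    · rw [max_eq_left h, mul_one]; exact h3
  have h7 : Real.log (KK B * ‖x‖ ^ (d ^ n) * max 1 ‖P d n c‖) < 0 := by
    apply Real.log_neg _ h6
    have : 0 < max 1 ‖P d n c‖ := lt_of_lt_of_le one_pos (le_max_left _ _)
    positivity
  have hm : 0 < max 1 ‖P d n c‖ := lt_of_lt_of_le one_pos (le_max_left _ _)
  rw [Real.log_mul (by positivity) hm.ne', Real.log_mul (by positivity) (by positivity),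
    Real.log_pow, ← Real.posLog_eq_log_max_one (norm_nonneg _)] at h7
  push_cast at h7
  have h8 : gap d c 0 n = Real.posLog ‖P d n c‖ / (d : ℝ) ^ n := rfl
  have h9 : Real.log (2 * (B + 1)) ≤ Real.log (KK B) :=
    Real.log_le_log (by linarith) (by unfold KK; linarith)
  have h10 : green d c 0 ≤ (Real.posLog ‖P d n c‖ + Real.log (KK B)) / (d : ℝ) ^ n := by
    rw [add_div, ← h8]
    have : Real.log (2 * (B + 1)) / (d : ℝ) ^ n ≤ Real.log (KK B) / (d : ℝ) ^ n :=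
      div_le_div_of_nonneg_right h9 hdn.le
    linarith
  refine lt_of_le_of_lt h10 ?_
  rw [div_lt_iff₀ hdn]
  linarith

open Classical in
/-- the map for the parameters of a disc -/
noncomputable def PsiB (d : ℕ) (B : ℝ) (ψ : ℂ × ℂ → ℂ) (G : ℕ → ℂ × ℂ → ℂ) (c x : ℂ) : ℂ :=
  if h : ∃ n, (c, x) ∈ EE d B n then Fn d ψ G (Nat.find h) c x else 0

variable {d : ℕ} {B : ℝ} {ψ : ℂ × ℂ → ℂ} {G : ℕ → ℂ × ℂ → ℂ}

open Classical in
theorem PsiB_eq (hd : 2 ≤ d) (hψ : NI d B ψ) (hG : IsSeq d G) {n : ℕ} {c x : ℂ}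
    (h : (c, x) ∈ EE d B n) : PsiB d B ψ G c x = Fn d ψ G n c x := by
  have hex : ∃ n, (c, x) ∈ EE d B n := ⟨n, h⟩
  unfold PsiB
  rw [dif_pos hex]
  exact (Fn_agree' hd hψ hG (Nat.find_min' hex h) (Nat.find_spec hex)).symm

theorem PsiB_cont (hd : 2 ≤ d) (hψ : NI d B ψ) (hG : IsSeq d G) {c x : ℂ} (hc : ‖c‖ < B)
    (hx : x ≠ 0) (hxr : ‖x‖ < rho d c) :
    ContinuousAt (fun p : ℂ × ℂ => PsiB d B ψ G p.1 p.2) (c, x) ∧
    DifferentiableAt ℂ (PsiB d B ψ G c) x := by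
  obtain ⟨n, hn⟩ := EE_exists hd hc hx ((lt_rho_iff hx).mp hxr)
  constructor
  · refine (Fn_cont hd hψ hG hn).congr ?_
    filter_upwards [(isOpen_EE d B n).mem_nhds hn] with p hp
    exact (PsiB_eq hd hψ hG hp).symm
  · refine (Fn_diff hd hψ hG hn).congr_of_eventuallyEq ?_
    have hop : IsOpen {y : ℂ | (c, y) ∈ EE d B n} := (isOpen_EE d B n).preimage (by fun_prop)
    filter_upwards [hop.mem_nhds hn] with y hy
    exact PsiB_eq hd hψ hG hy

theorem PsiB_isP (hd : 2 ≤ d) (hψ : NI d B ψ) (hG : IsSeq d G) {c : ℂ} (hc : ‖c‖ < B) :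
    IsP d c (PsiB d B ψ G c) := by
  have hB : 0 < B := lt_of_le_of_lt (norm_nonneg _) hc
  have hK := KK_pos hB
  refine ⟨?_, ?_, ?_, ?_⟩
  · intro x hx hxr
    exact (PsiB_cont hd hψ hG hc hx hxr).2.continuousAt
  · intro x hx hxr
    obtain ⟨n, hn⟩ := EE_exists hd hc hx ((lt_rho_iff hx).mp hxr)
    rw [PsiB_eq hd hψ hG hn]
    exact Fn_ne hd hψ hG hn
  · intro x hx hxr
    obtain ⟨n, hn⟩ := EE_exists hd hc hx ((lt_rho_iff hx).mp hxr)
    have hn' := EE_mono hd hn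
    rw [PsiB_eq hd hψ hG hn', PsiB_eq hd hψ hG (EE_pow hn')]
    exact Fn_step hd hψ hG hn'
  · refine (Fn_lim hd hψ hG (n := 0) hc).congr' ?_
    filter_upwards [small_ev B] with x hx
    rw [PsiB_eq hd hψ hG (n := 0)]
    refine ⟨hc, hx.1, ?_, ?_⟩
    · simp only [pow_zero, pow_one]; exact hx.2
    · intro i hi
      have hi0 : i = 0 := by omega
      subst hi0
      simp [P_zero]

theorem mem_EE_zero {c x : ℂ} (hc : ‖c‖ < B) (hx : x ≠ 0) (hx1 : KK B * ‖x‖ < 1) :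
    (c, x) ∈ EE d B 0 := by
  refine ⟨hc, hx, ?_, ?_⟩
  · simp only [pow_zero, pow_one]; exact hx1
  · intro i hi
    have hi0 : i = 0 := by omega
    subst hi0
    simp [P_zero]

/-- the properties of the inverse Boettcher coordinates of all the maps -/
structure IsPsi (d : ℕ) (Ψ : ℂ → ℂ → ℂ) : Prop where
  isP : ∀ c, IsP d c (Ψ c)
  cont : ∀ c x : ℂ, x ≠ 0 → ‖x‖ < rho d c → ContinuousAt (fun p : ℂ × ℂ => Ψ p.1 p.2) (c, x)
  diff : ∀ c x : ℂ, x ≠ 0 → ‖x‖ < rho d c → DifferentiableAt ℂ (Ψ c) x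
  near : ∀ B : ℝ, 0 < B → ∃ ψ, NI d B ψ ∧ ∀ c x : ℂ, ‖c‖ < B → x ≠ 0 → KK B * ‖x‖ < 1 →
    ‖x‖ < rho d c ∧ Ψ c x = ψ (c, x⁻¹)

theorem exists_psi {d : ℕ} (hd : 2 ≤ d) : ∃ Ψ, IsPsi d Ψ := by
  obtain ⟨G, hG⟩ := exists_seq hd
  have hex : ∀ B : ℝ, ∃ ψ, 0 < B → NI d B ψ := by
    intro B
    by_cases hB : 0 < B
    · obtain ⟨ψ, hψ⟩ := exists_ni hd hB
      exact ⟨ψ, fun _ => hψ⟩
    · exact ⟨0, fun h => absurd h hB⟩
  choose ψ hψ using hex
  have hpos : ∀ c : ℂ, 0 < ‖c‖ + 1 := fun c => by positivity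
  have hlt : ∀ c : ℂ, ‖c‖ < ‖c‖ + 1 := fun c => by linarith
  set Ψ : ℂ → ℂ → ℂ := fun c x => PsiB d (‖c‖ + 1) (ψ (‖c‖ + 1)) G c x with hΨ
  have hisP : ∀ c, IsP d c (Ψ c) := fun c => PsiB_isP hd (hψ _ (hpos c)) hG (hlt c)
  have heq : ∀ B : ℝ, ∀ c x : ℂ, ‖c‖ < B → x ≠ 0 → ‖x‖ < rho d c →
      Ψ c x = PsiB d B (ψ B) G c x := by
    intro B c x hc hx hxr
    have hB : 0 < B := lt_of_le_of_lt (norm_nonneg _) hc
    exact (hisP c).unique hd (PsiB_isP hd (hψ _ hB) hG hc) hx hxr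
  refine ⟨Ψ, hisP, ?_, ?_, ?_⟩
  · intro c x hx hxr
    set B : ℝ := ‖c‖ + 1 with hB
    obtain ⟨n, hn⟩ := EE_exists hd (hlt c) hx ((lt_rho_iff hx).mp hxr)
    refine (PsiB_cont hd (hψ B (hpos c)) hG (hlt c) hx hxr).1.congr ?_
    filter_upwards [(isOpen_EE d B n).mem_nhds hn] with p hp
    exact (heq B p.1 p.2 hp.1 hp.2.1 (EE_rho hd hp)).symm
  · intro c x hx hxr
    exact (PsiB_cont hd (hψ _ (hpos c)) hG (hlt c) hx hxr).2
  · intro B hB
    refine ⟨ψ B, hψ B hB, ?_⟩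
    intro c x hc hx hx1
    have hE : (c, x) ∈ EE d B 0 := mem_EE_zero hc hx hx1
    have hr := EE_rho hd hE
    refine ⟨hr, ?_⟩
    rw [heq B c x hc hx hr, PsiB_eq hd (hψ B hB) hG hE, Fn_zero (hψ B hB) hG hE]

end Pool.Agent.Y484.LC
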